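import Pool.Agent.Q284.FC.Os

/-!
# A finite criterion for Sato-Tate laws: finitely many representations, one point, one inequality

Let `C` be a generic curve of genus `g` over a number field, `USp(2g)` its Sato-Tate group, and for a prime `v` of good reduction
let `x_v ∈ USp(2g)` be an element with the characteristic polynomial of the normalised Frobenius element; it is the conjugacy class
of a point `ι(y_v)` of the maximal torus, given by the angles of the eigenvalues.  The criterion of Serre for the conjecture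
asks for the continuation of **all** functions
`L(π, s) = ∏_v det(1 - q_v^{-s} π(x_v))⁻¹` (`π` irreducible and nontrivial) to the line `Re s = 1`, and for the absence of
zeros and poles **on the whole line** and **for all** `π`.

The theorem of this file reduces the zeros and poles to a finite problem, for every compact connected Lie group `G` in the place of
`USp(2g)`.  There is a finite list `L` of nontrivial irreducible representations of `G`, which depends only on `G`
(not on the curve, nor on the number field), with the following property.  Suppose that all `L(π, s)` have a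
meromorphic continuation to a neighbourhood of the single point `s = 1`.  Then the classes `x_v` satisfy the Sato-Tate law in the sense of
the Dirichlet density if and only if

* `L(ρ, s)` has no pole at `s = 1`, for the finitely many `ρ` in `L` (nothing is asked about zeros), and
* the points `y_v` are not concentrated: there is no `k ≠ 0` in `ℤ^r` such that the mean value over `v` of the sum of the
  `|e^{2πi k·w(y_v)} - 1|²` over the Weyl group is zero.  (For `USp(2g)`: almost all classes `x_v` are close to a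
  finite set of classes of elements of finite order.)

Then no `L(π, s)` has a zero or a pole at `s = 1`, and none with `dim π ≥ 2` has a zero or a pole at a point `1 + iτ` at which it is
meromorphic.  If `G` has no nontrivial homomorphisms to the circle (as `USp(2g)`) and all `L(π, s)` have meromorphic continuations to
the points `1 + iτ`, then the criterion is equivalent to the Sato-Tate law in the sense of the natural density.

The condition of no concentration cannot be omitted: the law may be carried by elements of a large finite order, and then the mean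
values of any given finite number of characters are the same as for `G`.  The theorem says that this is the only possible deviation
which a finite number of characters does not see.

The proof.  The orders of the `L(π, s)` at `s = 1` are integers, and so are the coefficients of the orbit sums
`∑_w e(k·w(y))` in the characters of `G`.  Hence the mean values `φ(k)` of the orbit sums at the `y_v` are integers, and `φ` is a
positive definite function on `ℤ^r` with the values in a finite set.  If the criterion were false for all finite lists, there would be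
such functions `φ_N` which agree with the coefficients `φ₀` of Weyl's function `F = ∏_α |1 - e(α·y)|²` on larger and larger boxes
but differ from `φ₀` at a point `a_N`.  The limit of `φ_N(a_N + ·)` is an integral function, and by positivity it has finite support
and is given by a trigonometric polynomial `f` with integral coefficients with `|f| ≤ F`.  Divisibility in the ring of the
trigonometric polynomials implies `f = F f'` with `|f'| ≤ 1`; hence `f'` is a monomial, and `|φ_N|` attains the value `φ_N(0)` at a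
point different from zero, which is the concentration.  The inequalities at `s = 1` suffice because there are characters
with nonnegative values in which the trivial representation is rarer than any given nontrivial one (powers of a character with a
sharp peak at the identity).
-/

set_option autoImplicit false
set_option linter.unusedSectionVars false

namespace Pool.Agent.Results.MP_3da4c4_nt.FiniteCriterion

open NumberField IsDedekindDomain Filter Topology MeasureTheory UnitAddTorus

section

variable {K : Type} [Field K] [NumberField K]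

/-- The norm of a prime. -/
noncomputable def q (v : HeightOneSpectrum (𝓞 K)) : ℕ := Ideal.absNorm v.asIdeal

/-- `φ` has the mean value `c`, in the sense of the Dirichlet density. -/
def HasMean (φ : HeightOneSpectrum (𝓞 K) → ℂ) (c : ℂ) : Prop :=
  Tendsto (fun ε : ℝ => (∑' v, φ v * (q v : ℂ) ^ (-(1 + ε) : ℂ)) /
    ∑' v, (q (K := K) v : ℂ) ^ (-(1 + ε) : ℂ)) (𝓝[>] 0) (𝓝 c)

/-- `φ` has the mean value `c`, in the sense of the natural density. -/
def HasAverage (φ : HeightOneSpectrum (𝓞 K) → ℂ) (c : ℂ) : Prop :=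
  Tendsto (fun N : ℕ => (∑ᶠ v : {v : HeightOneSpectrum (𝓞 K) // q v ≤ N}, φ v.1) /
    (Nat.card {v : HeightOneSpectrum (𝓞 K) // q v ≤ N} : ℂ)) atTop (𝓝 c)

end

/-- The representation `π` is continuous and irreducible (its dimension is not zero and only the scalars commute with all
matrices `π g`). -/
structure IsIrreducible {G : Type} [Group G] [TopologicalSpace G] {d : ℕ}
    (π : G →* Matrix.unitaryGroup (Fin d) ℂ) : Prop where
  pos : d ≠ 0
  continuous : Continuous π
  schur : ∀ A : Matrix (Fin d) (Fin d) ℂ, (∀ g, (π g : Matrix (Fin d) (Fin d) ℂ) * A = A * π g) →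
    ∃ c : ℂ, A = c • (1 : Matrix (Fin d) (Fin d) ℂ)

/-- The representation `π` is not trivial. -/
def IsNontrivial {G : Type} [Group G] {d : ℕ} (π : G →* Matrix.unitaryGroup (Fin d) ℂ) : Prop :=
  ∃ g, π g ≠ 1

/-- There are no nontrivial continuous homomorphisms to the circle. -/
def IsPerfect (G : Type) [Group G] [TopologicalSpace G] : Prop :=
  ∀ χ : G →* Circle, Continuous χ → χ = 1

/-- Weyl's function `∏_j |1 - e(α_j · x)|²` on the torus `(ℝ/ℤ)^r`. -/
noncomputable def weylDensity {r m : ℕ} (α : Fin m → (Fin r → ℤ)) (x : UnitAddTorus (Fin r)) : ℝ :=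
  ∏ j, ‖1 - mFourier (α j) x‖ ^ 2

/-- The image of `ι` is a maximal torus of the compact connected group `G` with Haar measure `μ`, the `w_i` are the elements of the
Weyl group, and the `α_j` are the positive roots; the fields are the classical facts (of H. Weyl) which are used: the
continuous homomorphism `ι` meets all conjugacy classes, two points of the torus are conjugate if and only if some `w_i` maps
one to the other, the `w_i` are different continuous automorphisms and closed under composition, the roots are not zero, Weyl's function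
is invariant, and the integration formula. -/
structure IsMaximalTorus {G : Type} [Group G] [TopologicalSpace G] [MeasurableSpace G] (μ : Measure G)
    {r n m : ℕ} (ι : UnitAddTorus (Fin r) → G)
    (w : Fin n → UnitAddTorus (Fin r) → UnitAddTorus (Fin r)) (α : Fin m → (Fin r → ℤ)) : Prop where
  continuous : Continuous ι
  map_add : ∀ x y, ι (x + y) = ι x * ι y
  meets : ∀ g, ∃ x h, g = h * ι x * h⁻¹
  conjugate : ∀ x y, (∃ h, ι y = h * ι x * h⁻¹) ↔ ∃ i, y = w i x
  weyl_continuous : ∀ i, Continuous (w i)
  weyl_add : ∀ i x y, w i (x + y) = w i x + w i y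
  weyl_bijective : ∀ i, Function.Bijective (w i)
  weyl_injective : Function.Injective w
  weyl_comp : ∀ i i', ∃ k, ∀ x, w k x = w i (w i' x)
  root_ne : ∀ j, α j ≠ 0
  density_invariant : ∀ i x, weylDensity α (w i x) = weylDensity α x
  integration : ∀ f : G → ℂ, Continuous f → (∀ g h, f (h * g * h⁻¹) = f g) →
    n * ∫ g, f g ∂μ = ∫ x : UnitAddTorus (Fin r), f (ι x) * (weylDensity α x : ℂ)

section

variable {K : Type} [Field K] [NumberField K] {G : Type} [Group G] [TopologicalSpace G] {d : ℕ}

/-- The Euler product `L(π, s) = ∏_v det(1 - q_v^{-s} π(x_v))⁻¹`. -/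
noncomputable def LFun (x : HeightOneSpectrum (𝓞 K) → G) (π : G →* Matrix.unitaryGroup (Fin d) ℂ)
    (s : ℂ) : ℂ :=
  ∏' v, (Matrix.det (1 - ((q v : ℂ) ^ (-s)) • (π (x v) : Matrix (Fin d) (Fin d) ℂ)))⁻¹

/-- `Λ` is a meromorphic continuation of `L(π, s)` to a neighbourhood of `1 + iτ`. -/
def IsContinuation (x : HeightOneSpectrum (𝓞 K) → G) (π : G →* Matrix.unitaryGroup (Fin d) ℂ)
    (τ : ℝ) (Λ : ℂ → ℂ) : Prop :=
  MeromorphicAt Λ (1 + τ * Complex.I) ∧
    ∀ᶠ s in 𝓝 ((1 : ℂ) + τ * Complex.I), (1 : ℝ) < s.re → Λ s = LFun x π s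

/-- All `L(π, s)` with `π` irreducible and nontrivial have meromorphic continuations to neighbourhoods of `1 + iτ`. -/
def Continues (x : HeightOneSpectrum (𝓞 K) → G) (τ : ℝ) : Prop :=
  ∀ (d : ℕ) (π : G →* Matrix.unitaryGroup (Fin d) ℂ), IsIrreducible π → IsNontrivial π →
    ∃ Λ, IsContinuation x π τ Λ

/-- `L(π, s)` has no pole at `s = 1`. -/
def NoPole (x : HeightOneSpectrum (𝓞 K) → G) (π : G →* Matrix.unitaryGroup (Fin d) ℂ) : Prop :=
  ∀ Λ, IsContinuation x π 0 Λ → 0 ≤ meromorphicOrderAt Λ 1

/-- `L(π, s)` has neither a zero nor a pole at `1 + iτ`, if it is meromorphic there. -/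
def Regular (x : HeightOneSpectrum (𝓞 K) → G) (π : G →* Matrix.unitaryGroup (Fin d) ℂ) (τ : ℝ) :
    Prop :=
  ∀ Λ, IsContinuation x π τ Λ → meromorphicOrderAt Λ (1 + τ * Complex.I) = 0

/-- The classes of the `x v` are equidistributed for `μ`, in the sense of the Dirichlet density. -/
def DirichletLaw [MeasurableSpace G] (x : HeightOneSpectrum (𝓞 K) → G) (μ : Measure G) : Prop :=
  ∀ f : G → ℂ, Continuous f → (∀ g h, f (h * g * h⁻¹) = f g) →
    HasMean (fun v => f (x v)) (∫ g, f g ∂μ)

/-- The classes of the `x v` are equidistributed for `μ`, in the sense of the natural density. -/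
def NaturalLaw [MeasurableSpace G] (x : HeightOneSpectrum (𝓞 K) → G) (μ : Measure G) : Prop :=
  ∀ f : G → ℂ, Continuous f → (∀ g h, f (h * g * h⁻¹) = f g) →
    HasAverage (fun v => f (x v)) (∫ g, f g ∂μ)

/-- The points `y v` are concentrated at the kernel of a character of the torus. -/
def Concentrated {r n : ℕ} (w : Fin n → UnitAddTorus (Fin r) → UnitAddTorus (Fin r))
    (y : HeightOneSpectrum (𝓞 K) → UnitAddTorus (Fin r)) : Prop :=
  ∃ k : Fin r → ℤ, k ≠ 0 ∧
    HasMean (fun v => ((∑ i, ‖mFourier k (w i (y v)) - 1‖ ^ 2 : ℝ) : ℂ)) 0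

end

section Bridge

open Pool.Agent.Q284.IM Pool.Agent.Q284.FC Pool.Agent.TH553.ST Pool.Agent.TH553.RS
  Pool.Agent.W540.BE Pool.Agent.Q284.GR Pool.Agent.H341R2

variable {K : Type} [Field K] [NumberField K]

theorem avg_iff {φ : HeightOneSpectrum (𝓞 K) → ℂ} {c : ℂ} :
    HasAverage φ c ↔ Tendsto (mn φ) atTop (𝓝 c) := by
  unfold HasAverage
  have : (fun N : ℕ => (∑ᶠ v : {v : HeightOneSpectrum (𝓞 K) // q v ≤ N}, φ v.1) /
      (Nat.card {v : HeightOneSpectrum (𝓞 K) // q v ≤ N} : ℂ)) = mn φ := by
    funext N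
    have hs : ∀ v, v ∈ upto K N ↔ q v ≤ N := fun v => mem_upto
    let e : {v : HeightOneSpectrum (𝓞 K) // q v ≤ N} ≃ (upto K N) :=
      Equiv.subtypeEquivRight fun v => (hs v).symm
    have hfin : Finite {v : HeightOneSpectrum (𝓞 K) // q v ≤ N} := Finite.of_equiv _ e.symm
    unfold mn
    have h1 : (∑ᶠ v : {v : HeightOneSpectrum (𝓞 K) // q v ≤ N}, φ v.1) = ∑ v ∈ upto K N, φ v := by
      rw [← Finset.sum_coe_sort, ← finsum_eq_sum_of_fintype, ← finsum_comp_equiv e]
      rfl
    have h2 : Nat.card {v : HeightOneSpectrum (𝓞 K) // q v ≤ N} = (upto K N).card := by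
      rw [Nat.card_congr e, Nat.card_eq_fintype_card, Fintype.card_coe]
    rw [h1, h2, Complex.real_smul, div_eq_inv_mul]
    push_cast
    rfl
  rw [this]

theorem dir_eq {φ : HeightOneSpectrum (𝓞 K) → ℂ} (hφ : Bz φ) {ε : ℝ} (hε : 0 < ε) :
    (∑' v, φ v * (q v : ℂ) ^ (-(1 + ε) : ℂ)) / ∑' v, (q (K := K) v : ℂ) ^ (-(1 + ε) : ℂ) =
      ((dm (fun v => (φ v).re) ε : ℝ) : ℂ) + ((dm (fun v => (φ v).im) ε : ℝ) : ℂ) * Complex.I := by
  obtain ⟨B, hB⟩ := hφ
  have hw : ∀ v : HeightOneSpectrum (𝓞 K), (q v : ℂ) ^ (-(1 + ε) : ℂ) =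
      (((nm K v : ℝ) ^ (-(1 + ε)) : ℝ) : ℂ) := by
    intro v
    rw [Complex.ofReal_cpow (Nat.cast_nonneg _)]
    push_cast
    rfl
  have hre : 1 < ((1 : ℂ) + ε).re := by simp [hε]
  have hs := summable_nm hB hre
  have hs' : Summable fun v => φ v * (((nm K v : ℝ) ^ (-(1 + ε)) : ℝ) : ℂ) := by
    refine hs.congr fun v => ?_
    rw [← hw]
    rfl
  simp only [hw]
  have h1 : (∑' v, φ v * (((nm K v : ℝ) ^ (-(1 + ε)) : ℝ) : ℂ)) =
      ((EP (nm K) ε (fun v => (φ v).re) : ℝ) : ℂ) +
        ((EP (nm K) ε (fun v => (φ v).im) : ℝ) : ℂ) * Complex.I := by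
    apply Complex.ext
    · rw [Complex.re_tsum hs']
      simp [EP]
    · rw [Complex.im_tsum hs']
      simp [EP]
  have h2 : (∑' v, (((nm K v : ℝ) ^ (-(1 + ε)) : ℝ) : ℂ)) =
      ((EP (nm K) ε (fun _ => 1) : ℝ) : ℂ) := by
    rw [← Complex.ofReal_tsum]
    unfold EP
    simp
  rw [h1, h2]
  unfold dm
  push_cast
  ring

theorem mean_iff {φ : HeightOneSpectrum (𝓞 K) → ℂ} (hφ : Bz φ) {c : ℂ} :
    HasMean φ c ↔ Tendsto (dm fun v => (φ v).re) (𝓝[>] 0) (𝓝 c.re) ∧
      Tendsto (dm fun v => (φ v).im) (𝓝[>] 0) (𝓝 c.im) := by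
  have he : (fun ε : ℝ => (∑' v, φ v * (q v : ℂ) ^ (-(1 + ε) : ℂ)) /
      ∑' v, (q (K := K) v : ℂ) ^ (-(1 + ε) : ℂ)) =ᶠ[𝓝[>] 0] fun ε =>
      ((dm (fun v => (φ v).re) ε : ℝ) : ℂ) + ((dm (fun v => (φ v).im) ε : ℝ) : ℂ) *
        Complex.I := by
    filter_upwards [self_mem_nhdsWithin] with ε hε
    exact dir_eq hφ hε
  unfold HasMean
  rw [tendsto_congr' he]
  constructor
  · intro h
    have h1 := (Complex.continuous_re.tendsto _).comp h
    have h2 := (Complex.continuous_im.tendsto _).comp h
    exact ⟨h1.congr fun ε => by simp, h2.congr fun ε => by simp⟩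
  · rintro ⟨h1, h2⟩
    have h3 := ((Complex.continuous_ofReal.tendsto _).comp h1).add
      (((Complex.continuous_ofReal.tendsto _).comp h2).mul_const Complex.I)
    rw [Complex.re_add_im] at h3
    exact h3

theorem real_mean {φ : HeightOneSpectrum (𝓞 K) → ℝ} (hφ : Bd φ) {c : ℝ} :
    HasMean (fun v => (φ v : ℂ)) c ↔
      ∀ U : Ultrafilter ℝ, (U : Filter ℝ) ≤ 𝓝[>] 0 → M (nm K) U φ = c := by
  have hb : Bz fun v : HeightOneSpectrum (𝓞 K) => (φ v : ℂ) := by
    obtain ⟨B, hB⟩ := hφ
    exact ⟨B, fun v => by rw [Complex.norm_real]; exact hB v⟩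
  rw [mean_iff hb]
  simp only [Complex.ofReal_re, Complex.ofReal_im]
  constructor
  · rintro ⟨h, -⟩ U hU
    exact M_of_dm h hU
  · intro h
    exact ⟨dm_tendsto hφ h, dm_tendsto (Bd.const 0) fun U hU => M_const (sysF K) hU 0⟩

variable {G : Type} [Group G] [TopologicalSpace G] [IsTopologicalGroup G] [CompactSpace G]
  [T2Space G] [MeasurableSpace G] [BorelSpace G] {μ : Measure G} [IsProbabilityMeasure μ]
  [μ.IsHaarMeasure]

theorem dir_iff {x : HeightOneSpectrum (𝓞 K) → G} : DirichletLaw x μ ↔ DLaw x μ := by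
  constructor
  · intro h f hf hcl
    have h1 := h (fun g => (f g : ℂ)) (Complex.continuous_ofReal.comp hf) fun g h => by rw [hcl]
    have h0 : ∫ g, (f g : ℂ) ∂μ = ((∫ g, f g ∂μ : ℝ) : ℂ) := integral_ofReal
    rw [h0] at h1
    exact (real_mean (bd_cont hf x)).1 h1
  · intro h f hf hcl
    have hb : Bz fun v => f (x v) := by
      obtain ⟨B, hB⟩ := isCompact_univ.exists_bound_of_continuousOn hf.continuousOn
      exact ⟨B, fun v => hB _ (Set.mem_univ _)⟩
    rw [mean_iff hb]
    have h1 := integral_re (𝕜 := ℂ) (intg (μ := μ) hf)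
    have h2 := integral_im (𝕜 := ℂ) (intg (μ := μ) hf)
    simp only [RCLike.re_to_complex, RCLike.im_to_complex] at h1 h2
    rw [← h1, ← h2]
    exact ⟨dm_tendsto (bd_cont (Complex.continuous_re.comp hf) x)
      (h (fun g => (f g).re) (Complex.continuous_re.comp hf) fun g k => by rw [hcl]),
      dm_tendsto (bd_cont (Complex.continuous_im.comp hf) x)
      (h (fun g => (f g).im) (Complex.continuous_im.comp hf) fun g k => by rw [hcl])⟩

theorem law_of {x : HeightOneSpectrum (𝓞 K) → G} (h : NaturalLaw x μ) : Law x μ := by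
  intro f hf hcl
  have h1 := h (fun g => (f g : ℂ)) (Complex.continuous_ofReal.comp hf) fun g h => by rw [hcl]
  have h0 : ∫ g, (f g : ℂ) ∂μ = ((∫ g, f g ∂μ : ℝ) : ℂ) := integral_ofReal
  rw [avg_iff, h0] at h1
  have h2 := (Complex.continuous_re.tendsto _).comp h1
  refine h2.congr fun N => ?_
  simp only [Function.comp]
  rw [re_mn]
  rfl

theorem nc_iff {r n : ℕ} {w : Fin n → UnitAddTorus (Fin r) → UnitAddTorus (Fin r)}
    {y : HeightOneSpectrum (𝓞 K) → UnitAddTorus (Fin r)} : ¬ Concentrated w y ↔ NC w y := by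
  have h1 : ∀ k : Fin r → ℤ, HasMean (fun v => ((∑ i, ‖mFourier k (w i (y v)) - 1‖ ^ 2 : ℝ) : ℂ)) 0 ↔
      ∀ U : Ultrafilter ℝ, (U : Filter ℝ) ≤ 𝓝[>] 0 →
        M (nm K) U (fun v => Pool.Agent.Q284.FC.ds w k (y v)) = 0 := by
    intro k
    have hb : Bd fun v => Pool.Agent.Q284.FC.ds w k (y v) := by
      simp_rw [ds_eq]
      exact (Bd.const _).add ((bd_os k y).const_mul _)
    have h2 := real_mean hb (c := 0)
    rw [Complex.ofReal_zero] at h2
    exact h2
  unfold Concentrated NC
  simp only [h1]
  push Not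
  exact Iff.rfl

theorem we_of {r n m : ℕ} {ι : UnitAddTorus (Fin r) → G}
    {w : Fin n → UnitAddTorus (Fin r) → UnitAddTorus (Fin r)} {α : Fin m → (Fin r → ℤ)}
    (h : IsMaximalTorus μ ι w α) : We μ ι w α where
  c := h.continuous
  a := h.map_add
  s := h.meets
  j := fun x y k hk => (h.conjugate x y).1 ⟨k, hk⟩
  j' := fun i x => (h.conjugate x (w i x)).2 ⟨i, rfl⟩
  wc := h.weyl_continuous
  wa := h.weyl_add
  wb := h.weyl_bijective
  wi := h.weyl_injective
  wm := h.weyl_comp
  b := h.root_ne
  inv := h.density_invariant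
  int := h.integration

end Bridge

/-- **A finite criterion for Sato-Tate laws.**  Let `G` be a compact connected group with Haar probability measure `μ` and
a maximal torus `ι`, Weyl group `w` and positive roots `α` (see `IsMaximalTorus`).  There is a finite set `L` of nontrivial irreducible
representations of `G` with the following property.  Let `K` be a number field and `y v` points of the torus for the primes
`v` of `K`, such that all `L(π, s) = ∏_v det(1 - q_v^{-s} π(ι(y_v)))⁻¹` with irreducible nontrivial `π` have meromorphic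
continuations to neighbourhoods of the point `s = 1`.

I.  The classes of the `ι(y_v)` are equidistributed in `G`, in the sense of the Dirichlet density, if and only if `L(ρ, s)` has no
pole at `s = 1` for `ρ` in the finite set `L`, and the `y_v` are not concentrated.

II.  In this case no `L(π, s)` with an irreducible nontrivial `π` has a zero or a pole at `s = 1`, and no `L(π, s)` with
`dim π ≥ 2` has a zero or a pole at a point `1 + iτ` at which it has a meromorphic continuation.

III.  Suppose that `G` has no nontrivial homomorphisms to the circle and that there are continuations to neighbourhoods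
of all points `1 + iτ`.  The classes of the `ι(y_v)` are equidistributed in the sense of the natural density if and only if
`L(ρ, s)` has no pole at `s = 1` for `ρ` in `L`, and the `y_v` are not concentrated. -/
theorem result (G : Type) [Group G] [TopologicalSpace G] [IsTopologicalGroup G] [CompactSpace G]
    [T2Space G] [ConnectedSpace G] [MeasurableSpace G] [BorelSpace G] (μ : Measure G)
    [IsProbabilityMeasure μ] [μ.IsHaarMeasure] (r n m : ℕ) (ι : UnitAddTorus (Fin r) → G)
    (w : Fin n → UnitAddTorus (Fin r) → UnitAddTorus (Fin r)) (α : Fin m → (Fin r → ℤ))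
    (hG : IsMaximalTorus μ ι w α) :
    ∃ L : Finset (Σ d : ℕ, (G →* Matrix.unitaryGroup (Fin d) ℂ)),
      (∀ ρ ∈ L, IsIrreducible ρ.2 ∧ IsNontrivial ρ.2) ∧
      ∀ (K : Type) [Field K] [NumberField K] (y : HeightOneSpectrum (𝓞 K) → UnitAddTorus (Fin r)),
        Continues (fun v => ι (y v)) 0 →
        (DirichletLaw (fun v => ι (y v)) μ ↔
          (∀ ρ ∈ L, NoPole (fun v => ι (y v)) ρ.2) ∧ ¬ Concentrated w y) ∧
        (DirichletLaw (fun v => ι (y v)) μ →
          ∀ (d : ℕ) (π : G →* Matrix.unitaryGroup (Fin d) ℂ), IsIrreducible π → IsNontrivial π →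
            Regular (fun v => ι (y v)) π 0 ∧ (2 ≤ d → ∀ τ, Regular (fun v => ι (y v)) π τ)) ∧
        (IsPerfect G → (∀ τ, Continues (fun v => ι (y v)) τ) →
          (NaturalLaw (fun v => ι (y v)) μ ↔
            (∀ ρ ∈ L, NoPole (fun v => ι (y v)) ρ.2) ∧ ¬ Concentrated w y)) := by
  have H := we_of hG
  obtain ⟨L, h1, h2⟩ := H.main1
  refine ⟨L, fun ρ hρ => ⟨⟨(h1 ρ hρ).1, (h1 ρ hρ).2.1, (h1 ρ hρ).2.2.1⟩, (h1 ρ hρ).2.2.2⟩,
    fun K _ _ y hcn => ?_⟩
  have hcn' : ∀ ρ : Pool.Agent.Q284.FC.Rp G, Pool.Agent.Q284.FC.Ir ρ →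
      ∃ Λ, Pool.Agent.Q284.FC.Cn1 ρ.2 (fun v => ι (y v)) 0 Λ :=
    fun ρ hρ => hcn ρ.1 ρ.2 ⟨hρ.1, hρ.2.1, hρ.2.2.1⟩ hρ.2.2.2
  have e0 : (1 : ℂ) + ((0 : ℝ) : ℂ) * Complex.I = 1 := by simp
  have hdir : DirichletLaw (fun v => ι (y v)) μ ↔
      (∀ ρ ∈ L, NoPole (fun v => ι (y v)) ρ.2) ∧ ¬ Concentrated w y := by
    rw [dir_iff]
    constructor
    · intro hD
      refine ⟨fun ρ hρ Λ hΛ => ?_, nc_iff.2 (H.nc hD)⟩
      have h3 := Pool.Agent.Q284.FC.order_zero hD (h1 ρ hρ).2.1 (h1 ρ hρ).2.2.1 (h1 ρ hρ).2.2.2 hΛ
      rw [h3]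
      exact le_rfl
    · rintro ⟨h3, h4⟩
      exact h2 K y hcn' h3 (nc_iff.1 h4)
  refine ⟨hdir, fun hD d π hπ hπ' => ?_, fun hP hline => ?_⟩
  · rw [dir_iff] at hD
    refine ⟨fun Λ hΛ => ?_, fun hd τ Λ hΛ => ?_⟩
    · rw [e0]
      exact Pool.Agent.Q284.FC.order_zero hD hπ.continuous hπ.schur hπ' hΛ
    · exact Pool.Agent.Q284.FC.line_zero hD hd hπ.continuous hπ.schur hΛ
  · rw [← hdir]
    constructor
    · intro hN
      rw [dir_iff]
      intro f hf hcl U hU
      exact Pool.Agent.TH553.ST.M_law (law_of hN) hU hf hcl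
    · intro hD f hf hcl
      rw [dir_iff] at hD
      rw [avg_iff]
      exact Pool.Agent.Q284.FC.nat_law hD hP
        (fun ρ hρ τ => hline τ ρ.1 ρ.2 ⟨hρ.1, hρ.2.1, hρ.2.2.1⟩ hρ.2.2.2) hf hcl

end Pool.Agent.Results.MP_3da4c4_nt.FiniteCriterion
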