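import Pool.Agent.Q282.CL.ST
import Pool.Agent.Q69.CR.Prime

/-!
# Moderate deviations in the Sato–Tate law for hyperelliptic curves

`C` is the hyperelliptic curve `Y ^ 2 = X ^ (2 g + 1) + m (2 g) X ^ (2 g) + ... + m 0` of genus `g ≥ 1` over `ℚ`. At an odd prime `p` for
which the polynomial is separable modulo `p` the curve has good reduction, and its normalised `L`-polynomial is
`det (1 - T x_p) = ∑ a_n(p) T ^ n`, `∑ a_n(p) √p ^ n T ^ n = exp (∑ (#C(F_{p ^ r}) - p ^ r - 1) T ^ r / r)`. For a class function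
`φ = ∑ c_j ∏ a_{i_{j k}}` of degree at most `g` on `USp(2g)` (for instance the powers `a_k ^ m`, `k m ≤ g`, of the question) the
integral and the variance `σ ^ 2` over `USp(2g)` are numbers of symmetric matrices.

It is proved that the deviations of the averages over the first `n` primes `p_0 = 2, p_1 = 3, ...` from the integral have the
Gaussian order of probability in the complete range: for `y₀ ≤ y ≤ δ √n` and every box of coefficients with sides at least
`p_n ^ (K y ^ 2)` the proportion of the curves with `∑_{k < n} (φ(x_{p_k}) - ∫ φ) ≥ y σ √n` lies between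
`exp (- (1 + ε) y ^ 2 / 2)` and `exp (- (1 - ε) y ^ 2 / 2)`, and the same holds for `≤ - y σ √n`; here `K`, `y₀` and `δ` depend on
`g`, `φ` and `ε` only. (For fixed `y` and sides larger than every power of `p_n` the fluctuations are known to be Gaussian,
`MP_753a9c_nt.BrownianFluctuations`; here the tails are determined, up to probabilities as small as a power of the inverse size of
the box.)

Proof. The truncated exponential series of the sums are polynomials, the averages of which over the box agree with those in the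
model of independent residues; they are combined with the Legendre transform of the moment generating function of the model (tilted
measures, in `Pool/Agent/Q69/CR`). The local means and variances are the ones of `MP_753a9c_nt.BrownianFluctuations`.
-/

set_option autoImplicit false

namespace Pool.Agent.Results.MP_3da4c4_nt.ModerateDeviations

open Finset

open Classical in
/-- The number of the solutions of `Y ^ 2 = X ^ (2 g + 1) + m (2 g) X ^ (2 g) + ... + m 0` in the field with `p ^ r` elements: the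
number of the points of the curve over `F_{p ^ r}`, the point at infinity not included (`p` is a prime, `r ≥ 1`). -/
noncomputable def points {g : ℕ} (p r : ℕ) (m : Fin (2 * g + 1) → ℤ) : ℕ :=
  if h : p.Prime then
    haveI : Fact p.Prime := ⟨h⟩
    Nat.card {P : GaloisField p r × GaloisField p r //
      P.2 ^ 2 = P.1 ^ (2 * g + 1) + ∑ i, (m i : GaloisField p r) * P.1 ^ (i : ℕ)}
  else 0

/-- The coefficients of the power series `exp (∑ T r X ^ r / r)`: `c 0 = 1` and `n * c n = ∑ c (n - r) * T r`, the sum over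
`r = 1, ..., n`. -/
noncomputable def expCoeff (T : ℕ → ℝ) : ℕ → ℝ
  | 0 => 1
  | n + 1 => (∑ r : Fin (n + 1), expCoeff T (n - r) * T (r + 1)) / (n + 1)
termination_by n => n
decreasing_by omega

/-- `p` is odd and `X ^ (2 g + 1) + m (2 g) X ^ (2 g) + ... + m 0` is separable modulo `p`, so that the curve
`Y ^ 2 = X ^ (2 g + 1) + m (2 g) X ^ (2 g) + ... + m 0` has good reduction at `p`. -/
def Good {g : ℕ} (p : ℕ) (m : Fin (2 * g + 1) → ℤ) : Prop :=
  p ≠ 2 ∧ (Polynomial.X ^ (2 * g + 1) +
    ∑ i, Polynomial.C (m i : ZMod p) * Polynomial.X ^ (i : ℕ) : Polynomial (ZMod p)).Separable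

/-- The coefficient `a_n(p)` of `T ^ n` of the normalised `L`-polynomial `det (1 - T x_p)` at the prime `p` of the Jacobian of the
curve `C : Y ^ 2 = X ^ (2 g + 1) + m (2 g) X ^ (2 g) + ... + m 0`: the coefficient of `T ^ n` in
`exp (∑ (#C(F_{p ^ r}) - p ^ r - 1) T ^ r / r)` divided by `√p ^ n`. -/
noncomputable def coef {g : ℕ} (p n : ℕ) (m : Fin (2 * g + 1) → ℤ) : ℝ :=
  expCoeff (fun r => (points p r m : ℝ) - (p : ℝ) ^ r) n / (Real.sqrt p) ^ n

/-- The number of the symmetric matrices with entries in `ℕ`, even entries on the diagonal and row sums `i 0, i 1, ...`: for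
`∑ i j ≤ 2 g + 1` this is the integral of the product of the coefficients of `T ^ (i j)` of `det (1 - T x)` over `USp(2g)`. -/
noncomputable def haar {l : ℕ} (i : Fin l → ℕ) : ℕ :=
  Nat.card {S : Matrix (Fin l) (Fin l) ℕ // (∀ j k, S j k = S k j) ∧ (∀ j, Even (S j j)) ∧ ∀ j, ∑ k, S j k = i j}

/-- The variance of the class function `φ = ∑ j, c j * ∏ k, a_(i j k)` of degree at most `g` with respect to the Haar measure of
`USp(2g)`. -/
noncomputable def variance {l r : ℕ} (c : Fin l → ℝ) (i : Fin l → Fin r → ℕ) : ℝ :=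
  ∑ j, ∑ k, c j * c k * ((haar (Fin.append (i j) (i k)) : ℝ) - haar (i j) * haar (i k))

open Classical in
/-- The value `φ(x_p) - ∫ φ` for the class function `φ = ∑ j, c j * ∏ k, a_(i j k)`, at the primes with `Good p m`; at the other
primes it is put equal to `0`. -/
noncomputable def centred {g l r : ℕ} (c : Fin l → ℝ) (i : Fin l → Fin r → ℕ) (p : ℕ) (m : Fin (2 * g + 1) → ℤ) : ℝ :=
  if Good p m then ∑ j, c j * (∏ k, coef p (i j k) m - haar (i j)) else 0

/-- The normalised deviation: the sum of `φ(x_p) - ∫ φ` over the first `n` primes `p`, divided by `√(σ ^ 2 n)`, where `σ ^ 2` is the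
variance of `φ`. -/
noncomputable def deviation {g l r : ℕ} (c : Fin l → ℝ) (i : Fin l → Fin r → ℕ) (n : ℕ) (m : Fin (2 * g + 1) → ℤ) : ℝ :=
  (∑ k ∈ range n, centred c i (Nat.nth Nat.Prime k) m) / Real.sqrt (variance c i * n)

/-- The box of the `m` with `N i ≤ m i < N i + L i` for all `i`. -/
noncomputable def box {k : ℕ} (N : Fin k → ℤ) (L : Fin k → ℕ) : Finset (Fin k → ℤ) := Fintype.piFinset fun i => Ico (N i) (N i + L i)

open Classical in
/-- The proportion of the `m` of the box with the property `P`. -/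
noncomputable def proportion {k : ℕ} (N : Fin k → ℤ) (L : Fin k → ℕ) (P : (Fin k → ℤ) → Prop) : ℝ :=
  (((box N L).filter P).card : ℝ) / ∏ i, (L i : ℝ)

/-! ### Proofs -/

lemma card_affine {F : Type} [Field F] [Fintype F] [DecidableEq F] (hchar : ringChar F ≠ 2) (f : F → F) :
    (Nat.card {P : F × F // P.2 ^ 2 = f P.1} : ℝ) = (Fintype.card F : ℝ) + ∑ x : F, (quadraticChar F (f x) : ℝ) := by
  classical
  have h1 : Nat.card {P : F × F // P.2 ^ 2 = f P.1} = ∑ x : F, Nat.card {y : F // y ^ 2 = f x} := by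
    rw [← Nat.card_sigma]
    refine Nat.card_congr ⟨fun P => ⟨P.1.1, ⟨P.1.2, P.2⟩⟩, fun P => ⟨(P.1, P.2.1), P.2.2⟩, fun _ => rfl, fun _ => rfl⟩
  have h2 : ∀ x : F, ((Nat.card {y : F // y ^ 2 = f x} : ℕ) : ℤ) = quadraticChar F (f x) + 1 := by
    intro x
    rw [← quadraticChar_card_sqrts hchar (f x)]
    congr 1
    rw [Nat.card_eq_fintype_card, Fintype.card_subtype]
    congr 1
    ext y
    simp
  rw [h1]
  push_cast
  have h3 : ∀ x : F, ((Nat.card {y : F // y ^ 2 = f x} : ℕ) : ℝ) = (quadraticChar F (f x) : ℝ) + 1 := by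
    intro x
    have := h2 x
    exact_mod_cast this
  rw [sum_congr rfl (fun x _ => h3 x), sum_add_distrib, sum_const, card_univ, nsmul_eq_mul, mul_one]
  ring

lemma points_eq {g : ℕ} (p : ℕ) [Fact p.Prime] (hp2 : p ≠ 2) (r : ℕ) (hr : 1 ≤ r) (m : Fin (2 * g + 1) → ℤ) :
    (points p r m : ℝ) - (p : ℝ) ^ r =
      Pool.Agent.H341R2.Sharp.T (Q282.HL.mpol (2 * g + 1) (fun i => (m i : ZMod p))) r := by
  classical
  have hp : p.Prime := Fact.out
  have hcharF : ringChar (ZMod p) ≠ 2 := by
    rw [ZMod.ringChar_zmod_n]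
    exact hp2
  let _ : Fintype (GaloisField p r) := Fintype.ofFinite _
  have hfr : Module.finrank (ZMod p) (GaloisField p r) = r := GaloisField.finrank p (by omega)
  have hcard : (Fintype.card (GaloisField p r) : ℝ) = (p : ℝ) ^ r := by
    rw [Module.card_eq_pow_finrank (K := ZMod p) (V := GaloisField p r), hfr, ZMod.card]
    push_cast
    rfl
  have hcharE : ringChar (GaloisField p r) ≠ 2 := by
    rwa [← Algebra.ringChar_eq (ZMod p) (GaloisField p r)]
  have h4 := Pool.Agent.H341R2.Sharp.T_eq_sum (E := GaloisField p r) hcharF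
    (Q282.HL.mpol (2 * g + 1) (fun i => (m i : ZMod p)))
  rw [hfr] at h4
  unfold points
  rw [dif_pos hp, card_affine hcharE (fun x => x ^ (2 * g + 1) + ∑ i, (m i : GaloisField p r) * x ^ (i : ℕ)), hcard,
    add_sub_cancel_left, h4]
  push_cast
  refine sum_congr rfl fun x _ => ?_
  congr 2
  unfold Q282.HL.mpol Q282.HL.low
  simp only [map_add, map_pow, Polynomial.aeval_X, map_sum, map_mul, map_intCast]

lemma expCoeff_eq {g : ℕ} (p : ℕ) [Fact p.Prime] (hp2 : p ≠ 2) (m : Fin (2 * g + 1) → ℤ) (n : ℕ) :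
    expCoeff (fun r => (points p r m : ℝ) - (p : ℝ) ^ r) n =
      Pool.Agent.H341R2.Sharp.A (Q282.HL.mpol (2 * g + 1) (fun i => (m i : ZMod p))) n := by
  induction n using Nat.strong_induction_on with
  | _ n ih =>
    rcases n with _ | n
    · rw [expCoeff, Pool.Agent.H341R2.Sharp.A_zero]
      simp
    · have h1 := Pool.Agent.H341R2.Sharp.n_mul_A (Q282.HL.mpol (2 * g + 1) (fun i => (m i : ZMod p))) (n + 1)
      have h2 : ((n : ℝ) + 1) * (Pool.Agent.H341R2.Sharp.A (Q282.HL.mpol (2 * g + 1) (fun i => (m i : ZMod p))) (n + 1) : ℝ) =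
          ∑ r ∈ Icc 1 (n + 1), (Pool.Agent.H341R2.Sharp.A (Q282.HL.mpol (2 * g + 1) (fun i => (m i : ZMod p))) (n + 1 - r) : ℝ) *
            Pool.Agent.H341R2.Sharp.T (Q282.HL.mpol (2 * g + 1) (fun i => (m i : ZMod p))) r := by
        exact_mod_cast h1
      have hn : ((n : ℝ) + 1) ≠ 0 := by positivity
      have h3 : ∀ F : ℕ → ℝ, ∑ r ∈ Icc 1 (n + 1), F r = ∑ r : Fin (n + 1), F (r + 1) := by
        intro F
        rw [Fin.sum_univ_eq_sum_range (fun r => F (r + 1)) (n + 1)]
        symm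
        refine sum_nbij' (fun r => r + 1) (fun r => r - 1) ?_ ?_ ?_ ?_ ?_
        · intro r hr
          rw [mem_range] at hr
          rw [mem_Icc]
          omega
        · intro r hr
          rw [mem_Icc] at hr
          rw [mem_range]
          omega
        · intro r _
          exact Nat.add_sub_cancel r 1
        · intro r hr
          rw [mem_Icc] at hr
          exact Nat.sub_add_cancel hr.1
        · intro r _
          rfl
      rw [expCoeff, div_eq_iff hn, mul_comm _ ((n : ℝ) + 1), h2, h3]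
      refine sum_congr rfl fun r _ => ?_
      have hr : (r : ℕ) < n + 1 := r.2
      rw [ih (n - r) (by omega), points_eq p hp2 (r + 1) (by omega) m]
      congr 3
      omega

lemma haar_eq {l : ℕ} (i : Fin l → ℕ) : haar i = Q282.HL.symm i := rfl

lemma variance_eq {l r : ℕ} (c : Fin l → ℝ) (i : Fin l → Fin r → ℕ) : variance c i = Q282.CL.sg c i := rfl

lemma centred_eq {g l r : ℕ} (c : Fin l → ℝ) (i : Fin l → Fin r → ℕ) (hs : 0 < variance c i) (p : ℕ) (hp : p.Prime)
    (m : Fin (2 * g + 1) → ℤ) :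
    centred c i p m = Real.sqrt (variance c i) * Q282.CL.HS c i p (fun k => (m k : ZMod p)) := by
  classical
  have : Fact p.Prime := ⟨hp⟩
  have hσ : 0 < Real.sqrt (variance c i) := Real.sqrt_pos.2 hs
  unfold Q282.CL.HS
  rw [dif_pos hp, ← variance_eq, mul_div_cancel₀ _ hσ.ne']
  have hgood : Good p m ↔ (2 : ZMod p) ≠ 0 ∧ Squarefree (Q282.HL.mpol (2 * g + 1) (fun k => (m k : ZMod p))) := by
    unfold Good
    have h1 : p ≠ 2 ↔ (2 : ZMod p) ≠ 0 := by
      rw [not_iff_not]
      constructor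
      · intro h
        have h3 : ((2 : ℕ) : ZMod p) = 0 := by rw [ZMod.natCast_eq_zero_iff, h]
        exact_mod_cast h3
      · intro h
        have h3 : ((2 : ℕ) : ZMod p) = 0 := by exact_mod_cast h
        rw [ZMod.natCast_eq_zero_iff] at h3
        exact (Nat.prime_dvd_prime_iff_eq hp Nat.prime_two).1 h3
    rw [h1, ← PerfectField.separable_iff_squarefree]
    rfl
  unfold centred
  by_cases h : Good p m
  · rw [if_pos h]
    refine sum_congr rfl fun j _ => ?_
    unfold Q282.AX.locS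
    rw [if_pos (hgood.1 h)]
    congr 2
    refine prod_congr rfl fun k _ => ?_
    unfold coef
    rw [expCoeff_eq p h.1 m (i j k), ZMod.card]
  · rw [if_neg h]
    symm
    refine sum_eq_zero fun j _ => ?_
    unfold Q282.AX.locS
    rw [if_neg (fun h' => h (hgood.2 h')), mul_zero]

lemma proportion_eq {k : ℕ} (N : Fin k → ℤ) (L : Fin k → ℕ) (P : (Fin k → ℤ) → Prop) : Q282LT.zprop N L P = proportion N L P := rfl

lemma proportion_congr {k : ℕ} (N : Fin k → ℤ) (L : Fin k → ℕ) {P Q : (Fin k → ℤ) → Prop} (h : ∀ m, P m ↔ Q m) :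
    proportion N L P = proportion N L Q := by
  have : P = Q := funext fun m => propext (h m)
  rw [this]

lemma deviation_eq {g l r : ℕ} (c : Fin l → ℝ) (i : Fin l → Fin r → ℕ) (hs : 0 < variance c i) (n : ℕ)
    (m : Fin (2 * g + 1) → ℤ) : deviation c i n m =
      (∑ k ∈ range n, Q282.CL.HS c i (Nat.nth Nat.Prime k) (fun i => (m i : ZMod _))) / Real.sqrt n := by
  have hσ : 0 < Real.sqrt (variance c i) := Real.sqrt_pos.2 hs
  unfold deviation
  rw [sum_congr rfl fun k _ => centred_eq c i hs _ (Nat.prime_nth_prime k) m, ← mul_sum, Real.sqrt_mul hs.le,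
    mul_div_mul_left _ _ hσ.ne']

lemma variance_neg {l r : ℕ} (c : Fin l → ℝ) (i : Fin l → Fin r → ℕ) : variance (fun j => -c j) i = variance c i := by
  unfold variance
  refine sum_congr rfl fun j _ => sum_congr rfl fun k _ => ?_
  ring

lemma deviation_neg {g l r : ℕ} (c : Fin l → ℝ) (i : Fin l → Fin r → ℕ) (n : ℕ) (m : Fin (2 * g + 1) → ℤ) :
    deviation (fun j => -c j) i n m = -deviation c i n m := by
  unfold deviation
  rw [variance_neg, ← neg_div, ← sum_neg_distrib]
  congr 1
  refine sum_congr rfl fun k _ => ?_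
  unfold centred
  split_ifs
  · rw [← sum_neg_distrib]
    refine sum_congr rfl fun j _ => ?_
    ring
  · rw [neg_zero]

lemma upper (g : ℕ) (l r : ℕ) (c : Fin l → ℝ) (i : Fin l → Fin r → ℕ) (hi : ∀ j, ∑ k, i j k ≤ g)
    (hs : 0 < variance c i) (ε : ℝ) (hε : 0 < ε) : ∃ K y₀ δ : ℝ, 0 < K ∧ 1 ≤ y₀ ∧ 0 < δ ∧
    ∀ (n : ℕ) (y : ℝ), y₀ ≤ y → y ≤ δ * Real.sqrt n → ∀ (N : Fin (2 * g + 1) → ℤ) (L : Fin (2 * g + 1) → ℕ),
      (∀ k, (Nat.nth Nat.Prime n : ℝ) ^ (K * y ^ 2) ≤ L k) →
      Real.exp (-((1 + ε) * (y ^ 2 / 2))) ≤ proportion N L (fun m => y ≤ deviation c i n m) ∧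
      proportion N L (fun m => y ≤ deviation c i n m) ≤ Real.exp (-((1 - ε) * (y ^ 2 / 2))) := by
  obtain ⟨B, hB, hH, h2, h3⟩ := Q282.CL.class_data g c i hi hs
  have hBB : B ≤ max B 1 := le_max_left _ _
  obtain ⟨K, y₀, δ, hK, hy₀, hδ, h⟩ := Q69CR.mdp_primes (2 * g + 1) (max B 1) (le_max_right _ _) ε hε
  refine ⟨K, y₀, δ, hK, hy₀, hδ, ?_⟩
  intro n y hy hyn N L hL
  have h1 := h (Q282.CL.HS c i) (fun p hp u => (hH p hp u).trans hBB)
    (fun p hp => (h2 p hp).trans (div_le_div_of_nonneg_right hBB (Nat.cast_nonneg p)))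
    (fun p hp => (h3 p hp).trans (div_le_div_of_nonneg_right hBB (Nat.cast_nonneg p))) n y hy hyn N L hL
  have hn : 0 < Real.sqrt n := by
    by_contra h
    push Not at h
    have : δ * Real.sqrt n ≤ 0 := mul_nonpos_of_nonneg_of_nonpos hδ.le h
    linarith
  have e : proportion N L (fun m => y ≤ deviation c i n m) = Q282LT.zprop N L
      (fun t => y * Real.sqrt n ≤ ∑ k ∈ range n, Q282.CL.HS c i (Nat.nth Nat.Prime k) (fun i => (t i : ZMod _))) := by
    rw [proportion_eq]
    refine proportion_congr N L fun m => ?_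
    rw [deviation_eq c i hs, le_div_iff₀ hn]
  rw [e]
  exact h1

/-- Let `g ≥ 1`. (1) Let `φ = ∑ c_j ∏ a_{i_{j k}}` be a class function of degree at most `g` on `USp(2g)` (a real linear combination
of monomials in the coefficients `a_n` of `det (1 - T x)` with sums of indices `≤ g`) of variance `σ ^ 2 > 0`, and `ε > 0`. There are
`K > 0`, `y₀ ≥ 1` and `δ > 0` such that for all `n` and all `y` with `y₀ ≤ y ≤ δ √n` and for every box `N k ≤ m k < N k + L k` with
sides `L k ≥ p_n ^ (K y ^ 2)` the proportion of the curves `Y ^ 2 = X ^ (2 g + 1) + m (2 g) X ^ (2 g) + ... + m 0` with `m` in the box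
such that `∑_{k < n} (φ(x_{p_k}) - ∫ φ) ≥ y √(σ ^ 2 n)` lies between `exp (-(1 + ε) y ^ 2 / 2)` and `exp (-(1 - ε) y ^ 2 / 2)`, and
the same holds for `∑_{k < n} (φ(x_{p_k}) - ∫ φ) ≤ -y √(σ ^ 2 n)`. (2) The variance of the coefficient `a_j` is `(j + 1) / 2` (rounded
down). -/
theorem result (g : ℕ) (hg : 1 ≤ g) :
    (∀ (l r : ℕ) (c : Fin l → ℝ) (i : Fin l → Fin r → ℕ), (∀ j, ∑ k, i j k ≤ g) → 0 < variance c i →
      ∀ ε : ℝ, 0 < ε → ∃ K y₀ δ : ℝ, 0 < K ∧ 1 ≤ y₀ ∧ 0 < δ ∧
      ∀ (n : ℕ) (y : ℝ), y₀ ≤ y → y ≤ δ * Real.sqrt n → ∀ (N : Fin (2 * g + 1) → ℤ) (L : Fin (2 * g + 1) → ℕ),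
        (∀ k, (Nat.nth Nat.Prime n : ℝ) ^ (K * y ^ 2) ≤ L k) →
        (Real.exp (-((1 + ε) * (y ^ 2 / 2))) ≤ proportion N L (fun m => y ≤ deviation c i n m) ∧
          proportion N L (fun m => y ≤ deviation c i n m) ≤ Real.exp (-((1 - ε) * (y ^ 2 / 2)))) ∧
        (Real.exp (-((1 + ε) * (y ^ 2 / 2))) ≤ proportion N L (fun m => deviation c i n m ≤ -y) ∧
          proportion N L (fun m => deviation c i n m ≤ -y) ≤ Real.exp (-((1 - ε) * (y ^ 2 / 2))))) ∧
    ∀ j : ℕ, variance (fun _ : Fin 1 => (1 : ℝ)) (fun _ _ : Fin 1 => j) = ((j + 1) / 2 : ℕ) := by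
  constructor
  · intro l r c i hi hs ε hε
    obtain ⟨K₁, y₁, δ₁, hK₁, hy₁, hδ₁, h1⟩ := upper g l r c i hi hs ε hε
    obtain ⟨K₂, y₂, δ₂, hK₂, hy₂, hδ₂, h2⟩ := upper g l r (fun j => -c j) i hi (by rw [variance_neg]; exact hs) ε hε
    refine ⟨max K₁ K₂, max y₁ y₂, min δ₁ δ₂, lt_of_lt_of_le hK₁ (le_max_left _ _), hy₁.trans (le_max_left _ _),
      lt_min hδ₁ hδ₂, ?_⟩
    intro n y hy hyn N L hL
    have hP : (1 : ℝ) ≤ Nat.nth Nat.Prime n := by
      exact_mod_cast (Nat.prime_nth_prime n).one_lt.le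
    have hside : ∀ K : ℝ, K ≤ max K₁ K₂ → ∀ k, (Nat.nth Nat.Prime n : ℝ) ^ (K * y ^ 2) ≤ L k := fun K hK k =>
      (Real.rpow_le_rpow_of_exponent_le hP (mul_le_mul_of_nonneg_right hK (sq_nonneg y))).trans (hL k)
    refine ⟨h1 n y ((le_max_left _ _).trans hy)
      (hyn.trans (mul_le_mul_of_nonneg_right (min_le_left _ _) (Real.sqrt_nonneg _))) N L (hside K₁ (le_max_left _ _)), ?_⟩
    have h3 := h2 n y ((le_max_right _ _).trans hy)
      (hyn.trans (mul_le_mul_of_nonneg_right (min_le_right _ _) (Real.sqrt_nonneg _))) N L (hside K₂ (le_max_right _ _))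
    have e : proportion N L (fun m => deviation c i n m ≤ -y) = proportion N L (fun m => y ≤ deviation (fun j => -c j) i n m) := by
      refine proportion_congr N L fun m => ?_
      rw [deviation_neg]
      exact ⟨fun h => by linarith, fun h => by linarith⟩
    rw [e]
    exact h3
  · intro j
    unfold variance
    rw [Fin.sum_univ_one, Fin.sum_univ_one]
    rw [haar_eq, haar_eq, Q282.CL.symm_two, Q282.CL.symm_one]
    split_ifs with h
    · obtain ⟨a, ha⟩ := h
      have h1 : j / 2 = a := by omega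
      have h2 : (j + 1) / 2 = a := by omega
      rw [h1, h2]
      push_cast
      ring
    · have h1 : (j + 1) / 2 = j / 2 + 1 := by
        rw [Nat.not_even_iff_odd] at h
        obtain ⟨a, ha⟩ := h
        omega
      rw [h1]
      push_cast
      ring

end Pool.Agent.Results.MP_3da4c4_nt.ModerateDeviations
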