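import Pool.Agent.Q282.DA.Mom

/-!
# Moments over the primes of the zeta functions of a random curve of large genus

Let `K` be a number field of degree `d`, for instance `K = ℚ`, and let a curve
`C : y ^ m + f_(m-1)(x) y ^ (m-1) + ... + f_0(x) = 0`, `f_i = g_i + h_i`,
be given, where the polynomials `g_i` over the ring of integers are fixed, and the `m n d` coordinates of the coefficients of the `h_i`,
`deg h_i < n`, in a `ℤ`-basis are taken at random in a box with sides at least `m n d X`. If the `g_i` have degree `< n`, then the
genus `g` of `C` is at most `(m - 1) (n - 2)`. For a good prime `v` let `√q exp (i t)`, `q = N v`, be the `2 g` Frobenius eigenvalues, and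
let `L̄_v(z) = ∏ (1 - exp (i t) z)` be the normalised numerator of the zeta function, with the coefficients `a_{j,v}`. The
conjecture says that for `Y → ∞` the mean value of `a_{j,v} ^ l` over the primes with `N v ≤ Y` tends to the moment `c_j(l; g)` of the
coefficients of the characteristic polynomials of the matrices in `USp(2 g)`. For fixed `l` these moments are at most a power of `g`
(trivially `|a_{j,v}| ≤ 4 ^ g`), the discrepancy of the `2 g` eigenvalues of such a random matrix is `O (log g)` outside a set of
small probability, and more precisely its exponential moments of small order are at most a power of `g`.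

It is proved, unconditionally, that this is the true size for almost all curves, and already for all `2 ≤ Y ≤ X`, where `X` can be as
large as `exp (n ^ A)`: for all `l, A` there is a `C`, such that for all `n ≥ 2` and all `X ≤ exp (n ^ A)` outside a proportion
`n ^ (-A)` of the curves
`∑ (|L̄_v(z_v)| ^ l + |a_{j_v,v}| ^ l + exp (D_v / (21000 (κ + m)))) ≤ n ^ C Y / log Y`, `2 g ≤ κ n`,
for any set of good primes `v` with `N v ≤ Y`, `2 ≤ Y ≤ X`, where `z_v` is any point of the unit circle, `j_v` any number, and `D_v` the
difference between the number of the angles `t` in any arc and its mean value, so that we may take for each prime the largest value,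
the largest coefficient and the discrepancy of the angles. A single prime gives: for all `v` with `N v ≤ X` the discrepancy of the angles is
`O (log (n N v))` (of `2 g` angles), and `|L̄_v(z)|` and `|a_{j,v}|` are at most `(n ^ C N v) ^ (1 / l)`.

Proof. At one prime the reductions of the polynomials are nearly equidistributed. Over a finite field the power sums of the
eigenvalues are, up to small terms, sums over the closed points of the line of independent random variables; large deviations for
the sums over the points of small degree, and a majorant of `log |L̄_v|` by trigonometric polynomials whose coefficients are power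
sums, with high moments. For the arcs one needs trigonometric majorants of the indicator functions. All is uniform in `q`. Then the
means of the majorants are summed over the primes in dyadic intervals (Markov's inequality), and Chebyshev's bound for the number of the
primes is used.
-/

set_option autoImplicit false

namespace Pool.Agent.Results.MP_3da4c4_nt.MomentsOverThePrimes

open Finset NumberField IsDedekindDomain Polynomial
open Q282DA

/-- For all `2 ≤ Y ≤ X`, all finite sets `S` of primes `v` with `N v ≤ Y`, and all multisets `α v` of at most `κ n` numbers which are, for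
`v` in `S`, the multisets of the Frobenius eigenvalues of absolute value `√(N v)` of the curve over the residue field, with at most
`B` others: the sum over `S` of `|L̄_v(z_v)| ^ l + |a_v| ^ l + exp (D_v / (21000 (κ + m)))` is at most `n ^ C Y / log Y`. Here `L̄_v` is the
normalised characteristic polynomial, the product of the `1 - a z / √(N v)`, `a` in `α v`, the `z_v` are any points of the unit circle,
`a_v` is the coefficient of `L̄_v` with any number `j v`, and `D_v` is the absolute value of the difference between the number of the elements of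
`α v` with an angle in the interval `[x v, y v]` and its mean `#(α v) (y v - x v) / (2 π)`, for any `x v ≤ y v ≤ x v + 2 π`. -/
def Moments {K : Type} [Field K] [NumberField K] {m : ℕ} (κ B : ℝ) (l n C X : ℕ) (f : Fin m → (𝓞 K)[X]) : Prop :=
  ∀ Y : ℕ, 2 ≤ Y → Y ≤ X → ∀ S : Finset (HeightOneSpectrum (𝓞 K)), (∀ v ∈ S, Ideal.absNorm v.asIdeal ≤ Y) →
    ∀ α : HeightOneSpectrum (𝓞 K) → Multiset ℂ, (∀ v ∈ S, IsSpectrum f v (α v) B ∧ (Multiset.card (α v) : ℝ) ≤ κ * n) →
      ∀ (z : HeightOneSpectrum (𝓞 K) → ℂ) (j : HeightOneSpectrum (𝓞 K) → ℕ) (x y : HeightOneSpectrum (𝓞 K) → ℝ),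
        (∀ v ∈ S, ‖z v‖ = 1 ∧ x v ≤ y v ∧ y v ≤ x v + 2 * Real.pi) →
        ∑ v ∈ S, (‖(Lbar (α v) (Ideal.absNorm v.asIdeal)).eval (z v)‖ ^ l +
          ‖(Lbar (α v) (Ideal.absNorm v.asIdeal)).coeff (j v)‖ ^ l +
          Real.exp (|(arcs (α v) (Real.sqrt (Ideal.absNorm v.asIdeal)) (x v) (y v) : ℝ) -
            Multiset.card (α v) * ((y v - x v) / (2 * Real.pi))| / (21000 * (κ + m)))) ≤ (n : ℝ) ^ C * (Y / Real.log Y)

lemma coeff_attained (P : ℂ[X]) (j : ℕ) : ∃ z : ℂ, ‖z‖ = 1 ∧ ‖P.coeff j‖ ≤ ‖P.eval z‖ := by
  have hne : (Metric.sphere (0 : ℂ) 1).Nonempty := ⟨1, by simp⟩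
  obtain ⟨z, hz, hmax⟩ := (isCompact_sphere (0 : ℂ) 1).exists_isMaxOn hne (P.continuous.norm.continuousOn)
  refine ⟨z, by simpa using hz, coeff_le P (fun y hy => ?_) j⟩
  exact hmax (by simpa using hy)

open Classical in
/-- Let `K` be a number field of degree `d`, `m ≥ 1`, `κ, B ≥ 0`. For all `l, A` there is a `C` such that for all `n ≥ 2` and `X` with
`log X ≤ n ^ A`, all bases `b` of the ring of integers over `ℤ`, all polynomials `g_i`, `i < m`, over the ring of integers, and all
boxes `N k ≤ u k < N k + L k`, all sides of which are at least `m n d X`, for all but at most a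
proportion `n ^ (-A)` of the `u` of the box the curve with the polynomials `f_i = g_i + h_i`, where the coefficients of the
`h_i`, of degree `< n`, are `comb b u` (the coordinates with respect to `b` are the `u`), has the property `Moments κ B l n C X`. -/
theorem result (K : Type) [Field K] [NumberField K] (m : ℕ) (hm : 1 ≤ m) (κ B : ℝ) (hκ : 0 ≤ κ) (hB : 0 ≤ B) (l A : ℕ) :
    ∃ C : ℕ, ∀ n X : ℕ, 2 ≤ n → Real.log X ≤ (n : ℝ) ^ A →
      ∀ (b : Module.Basis (Fin (Module.finrank ℚ K)) ℤ (𝓞 K)) (g : Fin m → (𝓞 K)[X])
      (N : (Fin m × Fin n) × Fin (Module.finrank ℚ K) → ℤ) (L : (Fin m × Fin n) × Fin (Module.finrank ℚ K) → ℕ),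
      (∀ i, m * n * Module.finrank ℚ K * X ≤ L i) →
      (((Q282.GK.kbox N L).filter fun u => ¬ Moments κ B l n C X (fun i => g i + polys (Q282.GK.comb b u) i)).card : ℝ) ≤
        (∏ i, (L i : ℝ)) / (n : ℝ) ^ A := by
  have hb : ∀ (b : Module.Basis (Fin (Module.finrank ℚ K)) ℤ (𝓞 K)) (x : 𝓞 K), ∃ a : Fin (Module.finrank ℚ K) → ℤ,
      x = ∑ j, (a j : 𝓞 K) * b j := by
    intro b x
    refine ⟨fun j => b.repr x j, ?_⟩
    have h1 := b.sum_repr x
    rw [← h1]
    refine sum_congr rfl fun j _ => ?_
    rw [h1, zsmul_eq_mul]
  obtain ⟨C, hC⟩ := part_two (K := K) m hm κ B hκ hB l A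
  refine ⟨C, fun n X hn hX b g N L hL => ?_⟩
  refine hC n X hn hX (fun j => b j) (hb b) g N L hL _ (filter_subset _ _) ?_
  intro u hu
  rw [mem_filter] at hu
  have h1 := hu.2
  unfold Moments at h1
  push Not at h1
  obtain ⟨Y, hY2, hYX, S, hS, α, hα, z, j, x, y, hzxy, h2⟩ := h1
  choose z' hz' hle using fun v => coeff_attained (Lbar (α v) (Ideal.absNorm v.asIdeal)) (j v)
  refine ⟨Y, hY2, hYX, S, hS, α, z, z', x, y, fun v hv => ⟨(hα v hv).1, (hα v hv).2, (hzxy v hv).1, hz' v, (hzxy v hv).2.1, (hzxy v hv).2.2⟩, ?_⟩
  refine lt_of_lt_of_le h2 (sum_le_sum fun v _ => ?_)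
  exact add_le_add (add_le_add le_rfl (pow_le_pow_left₀ (norm_nonneg _) (hle v) l)) le_rfl

end Pool.Agent.Results.MP_3da4c4_nt.MomentsOverThePrimes
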