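import Pool.Agent.Q282.TC.Defs
import Pool.Agent.Q282.SH.Short
import Pool.Agent.Q282.MM.Main

/-!
# The Sato-Tate law of the first coefficient up to `O (g ^ (-1 / 2))` for almost all curves, in all short intervals

Let `K` be a number field, for instance `K = ℚ`, and let `C_1, ..., C_s` be hyperelliptic curves of genus `g_i ≥ n`,
`C_i : y ^ 2 = f_i(x)`, `f_i` a monic polynomial of degree `2 g_i + 1` over the ring of integers of `K`. For a good prime `v` let
`a_{1,v}(C_i) = (#C_i(F_v) - q - 1) / √q`, `q = N v`, be the first coefficient of the normalised numerator of the zeta function. The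
conjecture (for generic curves without relations between them) says that the vectors of these numbers have, in the limit, the law of
the independent random variables `c_1(γ_i)`, `γ_i` in `USp(2 g_i)`. Their moments of order `k ≤ 2 g_i + 1` are those of the normal
law, `(k - 1)‼` for even `k` and `0` for odd `k` (Diaconis-Shahshahani), and their law tends to the normal law for `g → ∞`.

It is proved, unconditionally and for almost all tuples of curves, that the conjecture holds up to `8 / √n`, with a power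
saving in the remainder and in very short intervals: let the coordinates of the coefficients of the `f_i` in a `ℤ`-basis of the ring of
integers be taken at random in any box with sides at least `T`, and let `𝒮(m)`, `m = 1, 2, ...`, be at most `m ^ a` sets
of primes of `K`. There is a `κ > 0` such that, outside a proportion `O (X₀ ^ (-a))` of exceptions, the following holds for all
`Y ≤ Y'` with `X₀ ≤ Y' ≤ T ^ κ` and all `S` in `𝒮(Y')` which contain at least `(1 + m) ^ (1 / 2) Y' ^ ε` of the `m` primes with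
`Y < N v ≤ Y'` (for instance all sets with a positive proportion of the primes, in all intervals with at least `Y' ^ (3 ε)` primes;
or primes in progressions and Frobenius classes): for all unit vectors `θ` and all `x`
`|#{v : ∑ θ_i a_{1,v}(C_i) ≤ x} / #{v} - Φ(x)| ≤ 4 / √n + C Y' ^ (-ε / 2)`, `v` in `S`, `Y < N v ≤ Y'`,
`Φ` the distribution function of the normal law, and the same with `8 / √n` and the distribution function of any
probability measure on the line which has the moments of the normal law of order at most `2 n`, in particular the law predicted by the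
conjecture.

Proof. For one prime `v` the mean values of the monomials in the `a_{1,v}(C_i)` of order `k_i ≤ 2 g_i + 1` are those of the normal law up to
`O ((N v) ^ (-1 / 2))`. High moments of the sums over the primes in the interval (the chinese remainder theorem) for all these monomials.
Then the inequality of Esseen (formalized by helper285, helper177): a probability measure with the moments of the normal law of
order at most `2 n` differs from it by at most `4 / √n`. The number of the perfect matchings: helper176.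
-/

set_option autoImplicit false

namespace Pool.Agent.Results.MP_3da4c4_nt.NearlyNormalTraces

open Finset NumberField IsDedekindDomain Polynomial MeasureTheory ProbabilityTheory
open Q282.TC

/-- The polynomials `f_i = X ^ (2 g_i + 1) + u (i, 2 g_i) X ^ (2 g_i) + ... + u (i, 0)`. -/
noncomputable def polynomials {R : Type} [CommRing R] {s : ℕ} {g : Fin s → ℕ} (u : (Σ i : Fin s, Fin (2 * g i + 1)) → R) (i : Fin s) : R[X] :=
  X ^ (2 * g i + 1) + ∑ l, C (u ⟨i, l⟩) * X ^ (l : ℕ)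

/-- `a_{1,v}`: the number `(#{affine points of y ^ 2 = f_i(x) over F_v} - q) / √q`, `q = N v`, if `v` is good (does not divide
two, and all `f_i` are squarefree modulo `v`), and `0` otherwise. -/
noncomputable def first {K : Type} [Field K] [NumberField K] {s : ℕ} (f : Fin s → (𝓞 K)[X]) (v : HeightOneSpectrum (𝓞 K)) (i : Fin s) : ℝ :=
  open scoped Classical in
  if Q282.PX.GoodP f v then ((Q282.JK.points (f i) v 1 : ℝ) - Ideal.absNorm v.asIdeal) / Real.sqrt (Ideal.absNorm v.asIdeal) else 0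

/-- The primes `v` of `K` with `Y < N v ≤ Y'`. -/
def interval (K : Type) [Field K] [NumberField K] (Y Y' : ℕ) : Set (HeightOneSpectrum (𝓞 K)) :=
  {v | Y < Ideal.absNorm v.asIdeal ∧ Ideal.absNorm v.asIdeal ≤ Y'}

/-- The proportion of the `v` in `V` with `∑ θ_i a_{1,v}(C_i) ≤ x`. -/
noncomputable def proportion {K : Type} [Field K] [NumberField K] {s : ℕ} (f : Fin s → (𝓞 K)[X]) (V : Set (HeightOneSpectrum (𝓞 K)))
    (θ : Fin s → ℝ) (x : ℝ) : ℝ :=
  ({v ∈ V | ∑ i, θ i * first f v i ≤ x}.ncard : ℝ) / V.ncard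

/-- For all `Y ≤ Y'` with `X₀ ≤ Y' ≤ W`, all `S` in `𝒮(Y')` which contain at least `(1 + m) ^ (1 / 2) Y' ^ ε` of the `m` primes with
`Y < N v ≤ Y'`, all unit vectors `θ` and all `x`: the proportion of the `v` in `S` with `Y < N v ≤ Y'` and `∑ θ_i a_{1,v}(C_i) ≤ x` differs
by at most `4 / √n + C Y' ^ (-ε / 2)` from `Φ(x)`, and by at most `8 / √n + C Y' ^ (-ε / 2)` from `ν((-∞, x])` for every
probability measure `ν` with the moments of order at most `2 n` of the normal law. -/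
def Typical {K : Type} [Field K] [NumberField K] {s : ℕ} (n : ℕ) (ε C : ℝ) (𝒮 : ℕ → Finset (Set (HeightOneSpectrum (𝓞 K))))
    (X₀ : ℕ) (W : ℝ) (f : Fin s → (𝓞 K)[X]) : Prop :=
  ∀ Y Y' : ℕ, Y ≤ Y' → X₀ ≤ Y' → (Y' : ℝ) ≤ W → ∀ S ∈ 𝒮 Y',
    Real.sqrt (1 + (interval K Y Y').ncard) * (Y' : ℝ) ^ ε ≤ (S ∩ interval K Y Y').ncard →
    ∀ θ : Fin s → ℝ, ∑ i, θ i ^ 2 = 1 → ∀ x : ℝ,
      |proportion f (S ∩ interval K Y Y') θ x - (gaussianReal 0 1).real (Set.Iic x)| ≤ 4 / Real.sqrt n + C * (Y' : ℝ) ^ (-(ε / 2)) ∧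
      ∀ (ν : Measure ℝ) [IsProbabilityMeasure ν], (∀ k ≤ 2 * n, Integrable (fun y : ℝ => y ^ k) ν) →
        (∀ k ≤ 2 * n, ∫ y, y ^ k ∂ν = if Even k then ((k - 1).doubleFactorial : ℝ) else 0) →
        |proportion f (S ∩ interval K Y Y') θ x - ν.real (Set.Iic x)| ≤ 8 / Real.sqrt n + C * (Y' : ℝ) ^ (-(ε / 2))

lemma exists_min {α : Type} (s : Finset α) (κ : α → ℝ) (h : ∀ x, 0 < κ x) : ∃ c : ℝ, 0 < c ∧ ∀ x ∈ s, c ≤ κ x := by
  classical
  induction s using Finset.induction_on with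
  | empty => exact ⟨1, one_pos, fun f hf => absurd hf (notMem_empty f)⟩
  | insert x s _ ih =>
    obtain ⟨c, hc, h'⟩ := ih
    refine ⟨min c (κ x), lt_min hc (h x), fun y hy => ?_⟩
    rcases mem_insert.1 hy with rfl | hy
    · exact min_le_right _ _
    · exact (min_le_left _ _).trans (h' y hy)

lemma interval_eq (K : Type) [Field K] [NumberField K] (Y Y' : ℕ) : interval K Y Y' = ↑(Q282.SH.IV K Y Y') := by
  ext v
  rw [mem_coe, Q282.SH.mem_IV]
  rfl

/-- the exponents -/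
def ex {s : ℕ} (g : Fin s → ℕ) (κ : Fin s → ℕ) (x : Q282.TP.Jx g) : ℕ := if (x.2 : ℕ) < κ x.1 then 1 else 0

lemma sum_ind (N κ : ℕ) (h : κ ≤ N) : ∑ j : Fin N, (if (j : ℕ) < κ then 1 else 0) = κ := by
  rw [Fin.sum_univ_eq_sum_range (fun j => if j < κ then 1 else 0) N, ← sum_filter, sum_const, smul_eq_mul, mul_one]
  have : (range N).filter (fun j => j < κ) = range κ := by
    ext j
    simp only [mem_filter, mem_range]
    omega
  rw [this, card_range]

lemma ex_sum {s : ℕ} (g : Fin s → ℕ) (κ : Fin s → ℕ) (h : ∀ i, κ i ≤ 2 * g i + 1) (i : Fin s) :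
    ∑ j : Fin (2 * g i + 1), ex g κ ⟨i, j⟩ = κ i := by
  unfold ex
  exact sum_ind _ _ (h i)

lemma wt_ex {s : ℕ} (g : Fin s → ℕ) (κ : Fin s → ℕ) (h : ∀ i, κ i ≤ 2 * g i + 1) : wt (ex g κ) = ∑ i, κ i := by
  unfold wt
  rw [Fintype.sum_sigma]
  exact sum_congr rfl fun i _ => ex_sum g κ h i

lemma inv_ex (h3 : Q282MM.S_Match) {s : ℕ} (g : Fin s → ℕ) (κ : Fin s → ℕ) (h : ∀ i, κ i ≤ 2 * g i + 1) :
    inv (ex g κ) = ∏ i, Q282MM.gm (κ i) := by
  unfold inv
  refine prod_congr rfl fun i _ => ?_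
  unfold Q282.HL.symm
  exact h3 _ _ (h i)

lemma ext_zero {K : Type} [Field K] [NumberField K] (f : (𝓞 K)[X]) (v : HeightOneSpectrum (𝓞 K)) : extTrace f v 0 1 = 1 := by
  unfold extTrace
  rw [Q282.JK.expCoeff]
  norm_num

lemma ext_one {K : Type} [Field K] [NumberField K] (f : (𝓞 K)[X]) (v : HeightOneSpectrum (𝓞 K)) :
    extTrace f v 1 1 = (Ideal.absNorm v.asIdeal : ℝ) - Q282.JK.points f v 1 := by
  unfold extTrace
  rw [Q282.JK.expCoeff]
  simp only [Fin.sum_univ_succ, Fin.sum_univ_zero]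
  norm_num [Q282.JK.expCoeff]

lemma trace_ex {K : Type} [Field K] [NumberField K] {s : ℕ} (g : Fin s → ℕ) (f : Fin s → (𝓞 K)[X]) (κ : Fin s → ℕ)
    (h : ∀ i, κ i ≤ 2 * g i + 1) (v : HeightOneSpectrum (𝓞 K)) :
    traceM f (ex g κ) v 1 = ∏ i, ((Ideal.absNorm v.asIdeal : ℝ) - Q282.JK.points (f i) v 1) ^ κ i := by
  unfold traceM
  rw [Fintype.prod_sigma]
  refine prod_congr rfl fun i _ => ?_
  have h1 : ∀ j : Fin (2 * g i + 1), extTrace (f i) v (ex g κ ⟨i, j⟩) 1 =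
      ((Ideal.absNorm v.asIdeal : ℝ) - Q282.JK.points (f i) v 1) ^ (if (j : ℕ) < κ i then 1 else 0) := by
    intro j
    unfold ex
    dsimp only
    split_ifs
    · rw [ext_one, pow_one]
    · rw [ext_zero, pow_zero]
  rw [prod_congr rfl fun j _ => h1 j, prod_pow_eq_pow_sum, sum_ind _ _ (h i)]

open Classical in
/-- the monomials -/
lemma val_ex {K : Type} [Field K] [NumberField K] {s : ℕ} (g : Fin s → ℕ) (f : Fin s → (𝓞 K)[X]) (κ : Fin s → ℕ)
    (h : ∀ i, κ i ≤ 2 * g i + 1) (h0 : ∑ i, κ i ≠ 0) (v : HeightOneSpectrum (𝓞 K)) :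
    (Ideal.absNorm v.asIdeal : ℝ) * valM f (ex g κ) v = (∏ i, (-first f v i) ^ κ i) - inv (ex g κ) := by
  have h1 : (0 : ℝ) < Ideal.absNorm v.asIdeal := by
    have := Q282.TP.two_le v
    linarith
  unfold valM
  rw [mul_div_cancel₀ _ h1.ne']
  congr 1
  unfold first
  by_cases hG : Q282.PX.GoodP f v
  · rw [if_pos hG, trace_ex g f κ h, wt_ex g κ h]
    simp only [if_pos hG]
    rw [← prod_pow_eq_pow_sum, ← prod_div_distrib]
    refine prod_congr rfl fun i _ => ?_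
    rw [← div_pow]
    congr 1
    rw [← neg_div, neg_sub]
  · rw [if_neg hG]
    simp only [if_neg hG, neg_zero]
    rw [prod_pow_eq_pow_sum, zero_pow h0]

/-- the moments of the linear combinations -/
lemma moment_eq {K : Type} [Field K] [NumberField K] {s : ℕ} (f : Fin s → (𝓞 K)[X]) (θ : Fin s → ℝ) (k : ℕ)
    (V : Finset (HeightOneSpectrum (𝓞 K))) :
    ∑ v ∈ V, (∑ i, θ i * first f v i) ^ k =
      ∑ κ ∈ Finset.piAntidiag (Finset.univ : Finset (Fin s)) k, (Nat.multinomial Finset.univ κ : ℝ) * (∏ i, (-θ i) ^ κ i) *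
        ∑ v ∈ V, ∏ i, (-first f v i) ^ κ i := by
  have h1 : ∀ v ∈ V, (∑ i, θ i * first f v i) ^ k =
      ∑ κ ∈ Finset.piAntidiag (Finset.univ : Finset (Fin s)) k, (Nat.multinomial Finset.univ κ : ℝ) * (∏ i, (-θ i) ^ κ i) *
        ∏ i, (-first f v i) ^ κ i := by
    intro v _
    rw [Finset.sum_pow_eq_sum_piAntidiag]
    refine sum_congr rfl fun κ _ => ?_
    rw [mul_assoc]
    congr 1
    rw [← prod_mul_distrib]
    refine prod_congr rfl fun i _ => ?_
    rw [← mul_pow, neg_mul_neg]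
  rw [sum_congr rfl h1, sum_comm]
  exact sum_congr rfl fun κ _ => (mul_sum _ _ _).symm

lemma abs_sum_le {s : ℕ} (θ : Fin s → ℝ) (h : ∑ i, θ i ^ 2 = 1) : 1 ≤ (s : ℝ) ∧ ∑ i, |θ i| ≤ (s : ℝ) := by
  have h1 : ∀ i, |θ i| ≤ 1 := by
    intro i
    have h2 : θ i ^ 2 ≤ ∑ i, θ i ^ 2 := single_le_sum (f := fun i => θ i ^ 2) (fun i _ => sq_nonneg (θ i)) (mem_univ i)
    rw [h] at h2
    exact abs_le_one_iff_mul_self_le_one.2 (by nlinarith)
  refine ⟨?_, ?_⟩
  · have h2 : (0 : ℕ) < s := by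
      rcases Nat.eq_zero_or_pos s with h0 | h0
      · subst h0
        simp at h
      · exact h0
    exact_mod_cast h2
  · refine (sum_le_sum fun i _ => h1 i).trans ?_
    simp

/-- the moments are close to those of the normal law -/
lemma moment_near (hc : Q282MM.S_Comb) (hm : Q282MM.S_Match) {K : Type} [Field K] [NumberField K] {s : ℕ} (g : Fin s → ℕ) (n : ℕ)
    (hgn : ∀ i, n ≤ g i) (f : Fin s → (𝓞 K)[X]) (θ : Fin s → ℝ) (hθ : ∑ i, θ i ^ 2 = 1) (V : Finset (HeightOneSpectrum (𝓞 K)))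
    (hV : V.Nonempty) (R : ℝ) (hR : 0 ≤ R)
    (hD : ∀ κ : Fin s → ℕ, ∑ i, κ i ≤ 2 * n → |∑ v ∈ V, (Ideal.absNorm v.asIdeal : ℝ) * valM f (ex g κ) v| ≤ R) (k : ℕ) (hk : k ≤ 2 * n) :
    |(∑ v ∈ V, (∑ i, θ i * first f v i) ^ k) / (V.card : ℝ) - (Q282MM.gm k : ℝ)| ≤ (s : ℝ) ^ (2 * n) * (R / V.card) := by
  classical
  have hN : (0 : ℝ) < V.card := by exact_mod_cast hV.card_pos
  obtain ⟨hs1, hs2⟩ := abs_sum_le θ hθ
  have hrhs : 0 ≤ (s : ℝ) ^ (2 * n) * (R / V.card) := by positivity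
  rcases Nat.eq_zero_or_pos k with h0 | h0
  · subst h0
    simp only [pow_zero, sum_const, nsmul_eq_mul, mul_one]
    rw [div_self hN.ne']
    have : (Q282MM.gm 0 : ℝ) = 1 := by simp [Q282MM.gm]
    rw [this, sub_self, abs_zero]
    exact hrhs
  · have hkap : ∀ κ ∈ Finset.piAntidiag (Finset.univ : Finset (Fin s)) k, ∑ i, κ i = k ∧ ∀ i, κ i ≤ 2 * g i + 1 := by
      intro κ hκ
      rw [mem_piAntidiag] at hκ
      have h3 : ∑ i, κ i = k := hκ.1
      refine ⟨h3, fun i => ?_⟩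
      have h1 : κ i ≤ ∑ i, κ i := single_le_sum (f := κ) (fun _ _ => Nat.zero_le _) (mem_univ i)
      have h2 := hgn i
      omega
    have h1 : ∀ κ ∈ Finset.piAntidiag (Finset.univ : Finset (Fin s)) k,
        ∑ v ∈ V, ∏ i, (-first f v i) ^ κ i = (∑ v ∈ V, (Ideal.absNorm v.asIdeal : ℝ) * valM f (ex g κ) v) + V.card * ∏ i, (Q282MM.gm (κ i) : ℝ) := by
      intro κ hκ
      obtain ⟨hsum, hle⟩ := hkap κ hκ
      have h2 : ∀ v ∈ V, (Ideal.absNorm v.asIdeal : ℝ) * valM f (ex g κ) v = (∏ i, (-first f v i) ^ κ i) - ∏ i, (Q282MM.gm (κ i) : ℝ) := by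
        intro v _
        rw [val_ex g f κ hle (by omega) v, inv_ex hm g κ hle]
        push_cast
        rfl
      rw [sum_congr rfl h2, sum_sub_distrib, sum_const, nsmul_eq_mul]
      ring
    have h2 : (∑ v ∈ V, (∑ i, θ i * first f v i) ^ k) / (V.card : ℝ) - (Q282MM.gm k : ℝ) =
        (∑ κ ∈ Finset.piAntidiag (Finset.univ : Finset (Fin s)) k, (Nat.multinomial Finset.univ κ : ℝ) * (∏ i, (-θ i) ^ κ i) *
          ∑ v ∈ V, (Ideal.absNorm v.asIdeal : ℝ) * valM f (ex g κ) v) / V.card := by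
      have h3 := hc s (fun i => -θ i) k
      have h4 : ∑ i, (-θ i) ^ 2 = 1 := by
        rw [← hθ]
        exact sum_congr rfl fun i _ => by ring
      rw [h4, Real.sqrt_one, one_pow, one_mul] at h3
      rw [moment_eq, ← h3, sub_eq_iff_eq_add, div_eq_iff hN.ne', add_mul, div_mul_cancel₀ _ hN.ne', sum_mul, ← sum_add_distrib]
      refine sum_congr rfl fun κ hκ => ?_
      rw [h1 κ hκ]
      ring
    rw [h2, abs_div, abs_of_pos hN, ← mul_div_assoc]
    refine div_le_div_of_nonneg_right ?_ hN.le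
    have h3 : ∀ κ ∈ Finset.piAntidiag (Finset.univ : Finset (Fin s)) k,
        |(Nat.multinomial Finset.univ κ : ℝ) * (∏ i, (-θ i) ^ κ i) * ∑ v ∈ V, (Ideal.absNorm v.asIdeal : ℝ) * valM f (ex g κ) v| ≤
          ((Nat.multinomial Finset.univ κ : ℝ) * ∏ i, |θ i| ^ κ i) * R := by
      intro κ hκ
      obtain ⟨hsum, _⟩ := hkap κ hκ
      rw [abs_mul, abs_mul, abs_prod, Nat.abs_cast]
      have h5 : ∏ i, |(-θ i) ^ κ i| = ∏ i, |θ i| ^ κ i := prod_congr rfl fun i _ => by rw [abs_pow, abs_neg]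
      rw [h5]
      refine mul_le_mul_of_nonneg_left (hD κ (by omega)) ?_
      exact mul_nonneg (Nat.cast_nonneg _) (prod_nonneg fun i _ => pow_nonneg (abs_nonneg _) _)
    refine (abs_sum_le_sum_abs _ _).trans ((sum_le_sum h3).trans ?_)
    rw [← sum_mul, ← Finset.sum_pow_eq_sum_piAntidiag]
    refine mul_le_mul_of_nonneg_right ?_ hR
    refine (pow_le_pow_left₀ (sum_nonneg fun i _ => abs_nonneg _) hs2 k).trans ?_
    exact pow_le_pow_right₀ hs1 hk

/-- Let `K` be a number field, let `C_i : y ^ 2 = f_i(x)`, `i = 1, ..., s`, be the curves with the polynomials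
`f_i = X ^ (2 g_i + 1) + ...` over the ring of integers of `K`, `g_i ≥ n ≥ 1`. For all `ε > 0` and `a` there are `κ > 0` and `C` with the
following property. Let `b` be a basis of the ring of integers over `ℤ`, let `𝒮(m)` be at most `m ^ a` sets of primes of `K`, let a box
`N k ≤ ν k < N k + L k` be given all sides of which are at least `T`, and `X₀ ≥ 1`. Then for all but at most a
proportion `C X₀ ^ (-a)` of the `ν` of the box the polynomials with the coefficients `t = comb b ν`, `t k = ∑ ν (k, l) b l`, have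
the property `Typical n ε C 𝒮 X₀ (T ^ κ)`. -/
theorem result (K : Type) [Field K] [NumberField K] (s : ℕ) (g : Fin s → ℕ) (n : ℕ) (hn : 1 ≤ n) (hgn : ∀ i, n ≤ g i) (ε : ℝ) (a : ℕ) (hε : 0 < ε) :
    ∃ κ : ℝ, 0 < κ ∧ ∃ C : ℝ, ∀ (b : Module.Basis (Fin (Module.finrank ℚ K)) ℤ (𝓞 K)) (𝒮 : ℕ → Finset (Set (HeightOneSpectrum (𝓞 K)))),
      (∀ m, (𝒮 m).card ≤ m ^ a) →
      ∀ (N : (Σ i : Fin s, Fin (2 * g i + 1)) × Fin (Module.finrank ℚ K) → ℤ)
      (L : (Σ i : Fin s, Fin (2 * g i + 1)) × Fin (Module.finrank ℚ K) → ℕ) (T : ℝ), 0 < T → (∀ k, T ≤ L k) → ∀ X₀ : ℕ, 1 ≤ X₀ →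
      (({ν ∈ Q282.GK.kbox N L | ¬ Typical n ε C 𝒮 X₀ (T ^ κ) (polynomials (Q282.GK.comb b ν))} : Set _).ncard : ℝ) ≤
        C * (X₀ : ℝ) ^ (-(a : ℝ)) * ∏ k, (L k : ℝ) := by
  classical
  have hc := Q282MM.comb_true
  have hm := Q282MM.match_true
  obtain ⟨C₁, hC₁, hemp, hnu⟩ := Q282MM.emp Q282MM.fin_true n hn
  -- the finite set of the exponents
  obtain ⟨𝒜, h𝒜⟩ : ∃ 𝒜 : Finset (Fin s → ℕ), 𝒜 = (Fintype.piFinset fun _ : Fin s => range (2 * n + 1)).filter fun κ => ∑ i, κ i ≤ 2 * n := ⟨_, rfl⟩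
  have hmem : ∀ κ : Fin s → ℕ, κ ∈ 𝒜 ↔ ∑ i, κ i ≤ 2 * n := by
    intro κ
    rw [h𝒜, mem_filter, Fintype.mem_piFinset]
    refine ⟨fun h => h.2, fun h => ⟨fun i => ?_, h⟩⟩
    have h1 : κ i ≤ ∑ i, κ i := single_le_sum (f := κ) (fun _ _ => Nat.zero_le _) (mem_univ i)
    rw [mem_range]
    omega
  have hle : ∀ κ ∈ 𝒜, ∀ i, κ i ≤ 2 * g i + 1 := by
    intro κ hκ i
    have h1 : κ i ≤ ∑ i, κ i := single_le_sum (f := κ) (fun _ _ => Nat.zero_le _) (mem_univ i)
    have h2 := hgn i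
    have h3 := (hmem κ).1 hκ
    omega
  have hloc : ∀ κ : Fin s → ℕ, ∃ B : ℝ, 0 < B ∧ (κ ∈ 𝒜 → Q282.TP.LocZ K (Q282.TP.Jx g) B (fun v t => valM (Q282.TP.cu t) (ex g κ) v)) := by
    intro κ
    by_cases hκ : κ ∈ 𝒜
    · obtain ⟨B, hB, h2⟩ := loc_M K g (ex g κ) (fun i => by rw [ex_sum g κ (hle κ hκ) i]; exact hle κ hκ i)
      exact ⟨B, hB, fun _ => h2⟩
    · exact ⟨1, one_pos, fun h => absurd h hκ⟩
  choose B hB hloc using hloc
  have hε2 : 0 < ε / 2 := by linarith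
  have hshort := fun κ => Q282.SH.short K (Q282.TP.Jx g) (B κ) (ε / 2) a (hB κ) hε2
  choose κf hκf Cf hCf hshort using hshort
  obtain ⟨κ₀, hκ₀, hκmin⟩ := exists_min 𝒜 κf hκf
  refine ⟨κ₀, hκ₀, (∑ κ ∈ 𝒜, Cf κ) + C₁ * (s : ℝ) ^ (2 * n), fun b 𝒮 h𝒮 N L T hT0 hTL X₀ hX₀ => ?_⟩
  have hb : ∀ x : 𝓞 K, ∃ a : Fin (Module.finrank ℚ K) → ℤ, x = ∑ j, (a j : 𝓞 K) * b j := by
    intro x
    refine ⟨fun j => b.repr x j, ?_⟩
    have h1 := b.sum_repr x
    rw [← h1]
    refine sum_congr rfl fun j _ => ?_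
    rw [h1, zsmul_eq_mul]
  have hX₀' : (1 : ℝ) ≤ X₀ := by exact_mod_cast hX₀
  have hpol : ∀ t : (Σ i : Fin s, Fin (2 * g i + 1)) → 𝓞 K, (polynomials t : Fin s → (𝓞 K)[X]) = Q282.TP.cu t := fun t => rfl
  have hCsum : 0 ≤ ∑ κ ∈ 𝒜, Cf κ := sum_nonneg fun κ _ => hCf κ
  have hs0 : (0 : ℝ) ≤ (s : ℝ) ^ (2 * n) := by positivity
  obtain ⟨Ψ, hΨ⟩ : ∃ Ψ : ℕ → Finset (HeightOneSpectrum (𝓞 K) → ℂ), Ψ = fun m => (𝒮 m).image fun S v => if v ∈ S then (1 : ℂ) else 0 := ⟨_, rfl⟩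
  have hΨc : ∀ m, (Ψ m).card ≤ m ^ a := by
    intro m
    rw [hΨ]
    exact card_image_le.trans (h𝒮 m)
  have hΨ1 : ∀ m, ∀ ψ ∈ Ψ m, ∀ v, ‖ψ v‖ ≤ 1 := by
    intro m ψ hψ v
    rw [hΨ] at hψ
    obtain ⟨S, _, rfl⟩ := mem_image.1 hψ
    dsimp only
    split_ifs <;> simp
  obtain ⟨E, hE⟩ : ∃ E : (Fin s → ℕ) → Finset ((Σ i : Fin s, Fin (2 * g i + 1)) × Fin (Module.finrank ℚ K) → ℤ), E = fun κ =>
      (Q282.GK.kbox N L).filter fun ν => ∃ X X' : ℕ, ∃ ψ ∈ Ψ X', X₀ ≤ X' ∧ X ≤ X' ∧ (X' : ℝ) ≤ T ^ κf κ ∧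
        Real.sqrt (1 + (Q282.SH.IV K X X').card) * (X' : ℝ) ^ (ε / 2) <
          ‖∑ v ∈ Q282.SH.IV K X X', ψ v * (((Ideal.absNorm v.asIdeal : ℝ) * valM (Q282.TP.cu (Q282.GK.comb b ν)) (ex g κ) v : ℝ) : ℂ)‖ := ⟨_, rfl⟩
  have h1 : ∀ κ ∈ 𝒜, ((E κ).card : ℝ) ≤ Cf κ * (X₀ : ℝ) ^ (-(a : ℝ)) * ∏ k, (L k : ℝ) := by
    intro κ hκ
    refine hshort κ (fun j => b j) hb (fun v t => valM (Q282.TP.cu t) (ex g κ) v) (hloc κ hκ) Ψ hΨc hΨ1 N L T hT0 hTL X₀ hX₀ (E κ)
      (by rw [hE]; exact filter_subset _ _) ?_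
    intro ν hν
    rw [hE] at hν
    exact (mem_filter.1 hν).2
  have h3 : ({ν ∈ Q282.GK.kbox N L | ¬ Typical n ε ((∑ κ ∈ 𝒜, Cf κ) + C₁ * (s : ℝ) ^ (2 * n)) 𝒮 X₀ (T ^ κ₀) (polynomials (Q282.GK.comb b ν))} : Set _) ⊆ ↑(𝒜.biUnion E) := by
    intro ν hν
    obtain ⟨hν1, hν2⟩ := hν
    by_contra hno
    rw [mem_coe, mem_biUnion] at hno
    push Not at hno
    refine hν2 fun Y Y' hYY hY hYT S hS hcard θ hθ x => ?_
    rw [hpol]
    have hYr : (1 : ℝ) ≤ Y' := by
      have : 1 ≤ Y' := hX₀.trans hY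
      exact_mod_cast this
    have hY0 : (0 : ℝ) < Y' := by linarith
    have hT1 : 1 ≤ T := by
      by_contra hlt
      push Not at hlt
      have := Real.rpow_lt_one hT0.le hlt hκ₀
      linarith
    -- the set
    obtain ⟨V, hVdef⟩ : ∃ V : Finset (HeightOneSpectrum (𝓞 K)), V = (Q282.SH.IV K Y Y').filter fun v => v ∈ S := ⟨_, rfl⟩
    have hVS : S ∩ interval K Y Y' = ↑V := by
      rw [interval_eq, hVdef, coe_filter]
      ext v
      simp only [Set.mem_inter_iff, mem_coe, Set.mem_ofPred_eq]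
      exact and_comm
    have e1 : (interval K Y Y').ncard = (Q282.SH.IV K Y Y').card := by
      rw [interval_eq, Set.ncard_coe_finset]
    rw [hVS, Set.ncard_coe_finset, e1] at hcard
    have hsq : 0 < Real.sqrt (1 + ((Q282.SH.IV K Y Y').card : ℝ)) := Real.sqrt_pos.2 (by positivity)
    have hVpos : (0 : ℝ) < V.card := lt_of_lt_of_le (mul_pos hsq (Real.rpow_pos_of_pos hY0 _)) hcard
    have hVne : V.Nonempty := by
      rw [← card_pos]
      exact_mod_cast hVpos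
    obtain ⟨R, hR⟩ : ∃ R : ℝ, R = Real.sqrt (1 + ((Q282.SH.IV K Y Y').card : ℝ)) * (Y' : ℝ) ^ (ε / 2) := ⟨_, rfl⟩
    have hR0 : 0 ≤ R := by
      rw [hR]
      positivity
    have hD : ∀ κ : Fin s → ℕ, ∑ i, κ i ≤ 2 * n →
        |∑ v ∈ V, (Ideal.absNorm v.asIdeal : ℝ) * valM (Q282.TP.cu (Q282.GK.comb b ν)) (ex g κ) v| ≤ R := by
      intro κ hκ
      have hκ' := (hmem κ).2 hκ
      have h4 := hno κ hκ'
      rw [hE] at h4
      by_contra hlt
      push Not at hlt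
      refine h4 (mem_filter.2 ⟨hν1, Y, Y', fun v => if v ∈ S then (1 : ℂ) else 0, ?_, hY, hYY,
        hYT.trans (Real.rpow_le_rpow_of_exponent_le hT1 (hκmin κ hκ')), ?_⟩)
      · rw [hΨ]
        exact mem_image.2 ⟨S, hS, rfl⟩
      · rw [← hR]
        refine hlt.trans_le (le_of_eq ?_)
        have e2 : ∑ v ∈ Q282.SH.IV K Y Y', (if v ∈ S then (1 : ℂ) else 0) *
            (((Ideal.absNorm v.asIdeal : ℝ) * valM (Q282.TP.cu (Q282.GK.comb b ν)) (ex g κ) v : ℝ) : ℂ) =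
            ((∑ v ∈ V, (Ideal.absNorm v.asIdeal : ℝ) * valM (Q282.TP.cu (Q282.GK.comb b ν)) (ex g κ) v : ℝ) : ℂ) := by
          rw [hVdef, sum_filter, Complex.ofReal_sum]
          refine sum_congr rfl fun v _ => ?_
          split_ifs <;> simp
        rw [e2, Complex.norm_real, Real.norm_eq_abs]
    have hη : (s : ℝ) ^ (2 * n) * (R / V.card) ≤ (s : ℝ) ^ (2 * n) * (Y' : ℝ) ^ (-(ε / 2)) := by
      refine mul_le_mul_of_nonneg_left ?_ hs0
      rw [div_le_iff₀ hVpos]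
      have h5 : (Y' : ℝ) ^ (-(ε / 2)) * (Real.sqrt (1 + ((Q282.SH.IV K Y Y').card : ℝ)) * (Y' : ℝ) ^ ε) = R := by
        rw [hR, mul_left_comm, ← Real.rpow_add hY0]
        congr 2
        ring
      rw [← h5]
      exact mul_le_mul_of_nonneg_left hcard (Real.rpow_nonneg hY0.le _)
    have hmain := hemp _ V (fun v => ∑ i, θ i * first (Q282.TP.cu (Q282.GK.comb b ν)) v i) _ hVne (by positivity)
      (fun k hk => moment_near hc hm g n hgn _ θ hθ V hVne R hR0 hD k hk) x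
    have hprop : proportion (Q282.TP.cu (Q282.GK.comb b ν)) (S ∩ interval K Y Y') θ x =
        ((V.filter fun v => ∑ i, θ i * first (Q282.TP.cu (Q282.GK.comb b ν)) v i ≤ x).card : ℝ) / (V.card : ℝ) := by
      unfold proportion
      rw [hVS, Set.ncard_coe_finset]
      congr 2
      rw [← Set.ncard_coe_finset, coe_filter]
      rfl
    have hA : |proportion (Q282.TP.cu (Q282.GK.comb b ν)) (S ∩ interval K Y Y') θ x - (gaussianReal 0 1).real (Set.Iic x)| ≤
        4 / Real.sqrt n + ((∑ κ ∈ 𝒜, Cf κ) + C₁ * (s : ℝ) ^ (2 * n)) * (Y' : ℝ) ^ (-(ε / 2)) := by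
      rw [hprop]
      refine hmain.trans ?_
      have h6 : C₁ * ((s : ℝ) ^ (2 * n) * (R / V.card)) ≤ C₁ * ((s : ℝ) ^ (2 * n) * (Y' : ℝ) ^ (-(ε / 2))) :=
        mul_le_mul_of_nonneg_left hη hC₁
      have h7 : 0 ≤ (∑ κ ∈ 𝒜, Cf κ) * (Y' : ℝ) ^ (-(ε / 2)) := mul_nonneg hCsum (Real.rpow_nonneg hY0.le _)
      nlinarith
    refine ⟨hA, fun ν' _ hi hk => ?_⟩
    have h8 := hnu ν' hi (fun k hk' => by
      rw [hk k hk']
      unfold Q282MM.gm
      split_ifs <;> simp) x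
    have h9 : |proportion (Q282.TP.cu (Q282.GK.comb b ν)) (S ∩ interval K Y Y') θ x - ν'.real (Set.Iic x)| ≤
        |proportion (Q282.TP.cu (Q282.GK.comb b ν)) (S ∩ interval K Y Y') θ x - (gaussianReal 0 1).real (Set.Iic x)| +
          |ν'.real (Set.Iic x) - Q282MM.Phi x| := by
      have e3 : proportion (Q282.TP.cu (Q282.GK.comb b ν)) (S ∩ interval K Y Y') θ x - ν'.real (Set.Iic x) =
          (proportion (Q282.TP.cu (Q282.GK.comb b ν)) (S ∩ interval K Y Y') θ x - (gaussianReal 0 1).real (Set.Iic x)) -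
            (ν'.real (Set.Iic x) - Q282MM.Phi x) := by
        unfold Q282MM.Phi
        ring
      rw [e3]
      exact abs_sub _ _
    have e4 : 8 / Real.sqrt n = 4 / Real.sqrt n + 4 / Real.sqrt n := by ring
    rw [e4]
    linarith
  have h4 : (({ν ∈ Q282.GK.kbox N L | ¬ Typical n ε ((∑ κ ∈ 𝒜, Cf κ) + C₁ * (s : ℝ) ^ (2 * n)) 𝒮 X₀ (T ^ κ₀) (polynomials (Q282.GK.comb b ν))} : Set _).ncard : ℝ) ≤
      ∑ κ ∈ 𝒜, ((E κ).card : ℝ) := by
    have h5 := Set.ncard_le_ncard h3 (finite_toSet _)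
    rw [Set.ncard_coe_finset] at h5
    exact_mod_cast h5.trans card_biUnion_le
  refine h4.trans ((sum_le_sum h1).trans ?_)
  rw [← sum_mul, ← sum_mul]
  refine mul_le_mul_of_nonneg_right (mul_le_mul_of_nonneg_right ?_ (Real.rpow_nonneg (by linarith) _)) (prod_nonneg fun k _ => Nat.cast_nonneg _)
  have := mul_nonneg hC₁ hs0
  linarith

end Pool.Agent.Results.MP_3da4c4_nt.NearlyNormalTraces
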